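import Mathlib

/-!
# Lattice points in right triangles: counting functions
-/

set_option autoImplicit false

open Finset

namespace Pool.Agent.E8helper63.LT

/-- the number of pairs `(k, m)` of positive integers with `m ≤ α √β - k β` -/
noncomputable def cnt (β α : ℝ) : ℕ :=
  Set.ncard {x : ℕ × ℕ | 0 < x.1 ∧ 0 < x.2 ∧ (x.2 : ℝ) ≤ α * √β - x.1 * β}

/-- the number of pairs `(k, m)` of positive integers with `q m + p k ≤ n` -/
noncomputable def cn (p q n : ℕ) : ℕ :=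
  Set.ncard {x : ℕ × ℕ | 0 < x.1 ∧ 0 < x.2 ∧ q * x.2 + p * x.1 ≤ n}

/-- the points of the columns `1, …, K` below heights `f k` -/
def cols (K : ℕ) (f : ℕ → ℕ) : Finset (ℕ × ℕ) :=
  ((Icc 1 K).sigma fun k => Icc 1 (f k)).map (Equiv.sigmaEquivProd ℕ ℕ).toEmbedding

theorem mem_cols (K : ℕ) (f : ℕ → ℕ) (x : ℕ × ℕ) :
    x ∈ cols K f ↔ (1 ≤ x.1 ∧ x.1 ≤ K) ∧ 1 ≤ x.2 ∧ x.2 ≤ f x.1 := by
  obtain ⟨k, m⟩ := x
  unfold cols
  rw [mem_map]
  constructor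
  · rintro ⟨⟨k', m'⟩, h, h2⟩
    simp only [Equiv.toEmbedding_apply, Equiv.sigmaEquivProd_apply, Prod.mk.injEq] at h2
    obtain ⟨rfl, rfl⟩ := h2
    simpa using h
  · intro h
    exact ⟨⟨k, m⟩, by simpa using h, rfl⟩

theorem card_cols (K : ℕ) (f : ℕ → ℕ) : (cols K f).card = ∑ k ∈ Icc 1 K, f k := by
  unfold cols
  rw [card_map, card_sigma]
  refine sum_congr rfl fun k _ => ?_
  rw [Nat.card_Icc]
  omega

theorem cnt_set {β α : ℝ} (hβ : 0 < β) {K : ℕ} (hK : α * √β < (K + 1) * β) :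
    {x : ℕ × ℕ | 0 < x.1 ∧ 0 < x.2 ∧ (x.2 : ℝ) ≤ α * √β - x.1 * β} =
      (cols K fun k => ⌊α * √β - k * β⌋₊ : Set (ℕ × ℕ)) := by
  ext x
  simp only [Set.mem_ofPred_eq, mem_coe, mem_cols]
  constructor
  · rintro ⟨h1, h2, h3⟩
    have h2' : (1 : ℝ) ≤ x.2 := by exact_mod_cast h2
    refine ⟨⟨h1, ?_⟩, h2, Nat.le_floor h3⟩
    by_contra hc
    push Not at hc
    have h4 : ((K : ℝ) + 1) ≤ x.1 := by exact_mod_cast hc
    have h5 : ((K : ℝ) + 1) * β ≤ x.1 * β := mul_le_mul_of_nonneg_right h4 hβ.le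
    linarith
  · rintro ⟨⟨h1, _⟩, h2, h3⟩
    refine ⟨h1, h2, ?_⟩
    have h4 : (0 : ℝ) ≤ α * √β - x.1 * β := by
      by_contra hc
      push Not at hc
      rw [Nat.floor_of_nonpos hc.le] at h3
      omega
    exact (Nat.le_floor_iff h4).1 h3

theorem cnt_eq_sum {β α : ℝ} (hβ : 0 < β) {K : ℕ} (hK : α * √β < (K + 1) * β) :
    cnt β α = ∑ k ∈ Icc 1 K, ⌊α * √β - k * β⌋₊ := by
  unfold cnt
  rw [cnt_set hβ hK, Set.ncard_coe_finset, card_cols]

theorem cnt_finite {β α : ℝ} (hβ : 0 < β) :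
    {x : ℕ × ℕ | 0 < x.1 ∧ 0 < x.2 ∧ (x.2 : ℝ) ≤ α * √β - x.1 * β}.Finite := by
  obtain ⟨K, hK⟩ := exists_nat_gt (α * √β / β)
  rw [div_lt_iff₀ hβ] at hK
  rw [cnt_set hβ (K := K) (by linarith)]
  exact finite_toSet _

theorem cn_set {p q n : ℕ} (hp : 0 < p) (hq : 0 < q) {K : ℕ} (hK : n ≤ K) :
    {x : ℕ × ℕ | 0 < x.1 ∧ 0 < x.2 ∧ q * x.2 + p * x.1 ≤ n} =
      (cols K fun k => (n - p * k) / q : Set (ℕ × ℕ)) := by
  ext x
  simp only [Set.mem_ofPred_eq, mem_coe, mem_cols]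
  constructor
  · rintro ⟨h1, h2, h3⟩
    refine ⟨⟨h1, ?_⟩, h2, ?_⟩
    · have : x.1 ≤ p * x.1 := Nat.le_mul_of_pos_left _ hp
      omega
    · rw [Nat.le_div_iff_mul_le hq, mul_comm]
      omega
  · rintro ⟨⟨h1, _⟩, h2, h3⟩
    refine ⟨h1, h2, ?_⟩
    rw [Nat.le_div_iff_mul_le hq, mul_comm] at h3
    have : q ≤ q * x.2 := Nat.le_mul_of_pos_right _ h2
    omega

theorem cn_eq_sum {p q n : ℕ} (hp : 0 < p) (hq : 0 < q) {K : ℕ} (hK : n ≤ K) :
    cn p q n = ∑ k ∈ Icc 1 K, (n - p * k) / q := by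
  unfold cn
  rw [cn_set hp hq hK, Set.ncard_coe_finset, card_cols]

theorem cn_finite {p q : ℕ} (n : ℕ) (hp : 0 < p) (hq : 0 < q) :
    {x : ℕ × ℕ | 0 < x.1 ∧ 0 < x.2 ∧ q * x.2 + p * x.1 ≤ n}.Finite := by
  rw [cn_set hp hq (le_refl n)]
  exact finite_toSet _

/-- no pairs below `p + q` -/
theorem cn_small {p q n : ℕ} (h : n < p + q) : cn p q n = 0 := by
  unfold cn
  have : {x : ℕ × ℕ | 0 < x.1 ∧ 0 < x.2 ∧ q * x.2 + p * x.1 ≤ n} = ∅ := by
    ext x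
    simp only [Set.mem_ofPred_eq, Set.mem_empty_iff_false, iff_false]
    rintro ⟨h1, h2, h3⟩
    have h4 : q ≤ q * x.2 := Nat.le_mul_of_pos_right _ h2
    have h5 : p ≤ p * x.1 := Nat.le_mul_of_pos_right _ h1
    omega
  rw [this, Set.ncard_empty]

/-- the symmetry `β ↦ 1 / β` -/
theorem cnt_inv {β α : ℝ} (hβ : 0 < β) : cnt β⁻¹ α = cnt β α := by
  unfold cnt
  have h : {x : ℕ × ℕ | 0 < x.1 ∧ 0 < x.2 ∧ (x.2 : ℝ) ≤ α * √β⁻¹ - x.1 * β⁻¹} =
      Prod.swap '' {x : ℕ × ℕ | 0 < x.1 ∧ 0 < x.2 ∧ (x.2 : ℝ) ≤ α * √β - x.1 * β} := by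
    rw [Set.image_swap_eq_preimage_swap]
    ext x
    simp only [Set.mem_ofPred_eq, Set.mem_preimage, Prod.fst_swap, Prod.snd_swap]
    have hs : 0 < √β := Real.sqrt_pos.2 hβ
    have hsq : √β * √β = β := Real.mul_self_sqrt hβ.le
    have e : √β⁻¹ = √β * β⁻¹ := by
      rw [Real.sqrt_inv, eq_mul_inv_iff_mul_eq₀ hβ.ne', inv_mul_eq_iff_eq_mul₀ hs.ne', hsq]
    have key : (x.2 : ℝ) ≤ α * √β⁻¹ - x.1 * β⁻¹ ↔ (x.1 : ℝ) ≤ α * √β - x.2 * β := by
      rw [e]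
      have h1 : α * (√β * β⁻¹) - x.1 * β⁻¹ = (α * √β - x.1) * β⁻¹ := by ring
      rw [h1, le_mul_inv_iff₀ hβ]
      constructor <;> intro h <;> linarith
    tauto
  rw [h, Set.ncard_image_of_injective _ Prod.swap_injective]

/-- the trivial upper bound -/
theorem cnt_le_sq {β α : ℝ} (hβ : 0 < β) (hα : 0 ≤ α) :
    (cnt β α : ℝ) ≤ (α - √β / 2) ^ 2 / 2 := by
  have hs : 0 < √β := Real.sqrt_pos.2 hβ
  have hsq : √β * √β = β := Real.mul_self_sqrt hβ.le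
  set K := ⌊α / √β⌋₊ with hKd
  have hK1 : (K : ℝ) ≤ α / √β := Nat.floor_le (div_nonneg hα hs.le)
  have hK2 : α / √β < K + 1 := Nat.lt_floor_add_one _
  have hK1' : (K : ℝ) * √β ≤ α := by rwa [le_div_iff₀ hs] at hK1
  have hK2' : α < (K + 1) * √β := by rwa [div_lt_iff₀ hs] at hK2
  have hK3 : α * √β < (K + 1) * β := by
    have := mul_lt_mul_of_pos_right hK2' hs
    rwa [mul_assoc, hsq] at this
  rw [cnt_eq_sum hβ hK3]
  push_cast
  have h1 : ∑ k ∈ Icc 1 K, ((⌊α * √β - k * β⌋₊ : ℕ) : ℝ) ≤ ∑ k ∈ Icc 1 K, (α * √β - k * β) := by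
    refine sum_le_sum fun k hk => Nat.floor_le ?_
    rw [mem_Icc] at hk
    have h2 : (k : ℝ) ≤ K := by exact_mod_cast hk.2
    have h3 : (k : ℝ) * √β ≤ α := le_trans (mul_le_mul_of_nonneg_right h2 hs.le) hK1'
    have h4 : (k : ℝ) * β ≤ α * √β := by
      have := mul_le_mul_of_nonneg_right h3 hs.le
      rwa [mul_assoc, hsq] at this
    linarith
  refine h1.trans ?_
  have h2 : ∀ N : ℕ, ∑ k ∈ Icc 1 N, (α * √β - k * β) = N * (α * √β) - β * (N * (N + 1) / 2) := by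
    intro N
    induction N with
    | zero => simp
    | succ N ih =>
      rw [sum_Icc_succ_top (by omega), ih]
      push_cast
      ring
  rw [h2]
  have h3 : (α - √β / 2) ^ 2 / 2 - (K * (α * √β) - β * (K * (K + 1) / 2)) =
      (α - K * √β - √β / 2) ^ 2 / 2 := by
    linear_combination (-((K : ℝ) * (K + 1) / 2)) * hsq
  nlinarith [sq_nonneg (α - K * √β - √β / 2)]

/-- if the line is steeper than the slope `p / q` and does not reach the layer `n + 1`, the count is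
at most the count of the points up to the layer `n` -/
theorem cnt_le_cn {β α : ℝ} {p q n : ℕ} (hp : 0 < p) (hq : 0 < q) (hpq : (p : ℝ) ≤ q * β)
    (h : α * (q * √β) < n + 1) : cnt β α ≤ cn p q n := by
  unfold cnt cn
  refine Set.ncard_le_ncard ?_ (cn_finite n hp hq)
  rintro x ⟨h1, h2, h3⟩
  refine ⟨h1, h2, ?_⟩
  have hq' : (0 : ℝ) < q := by exact_mod_cast hq
  have h4 : (q : ℝ) * x.2 + p * x.1 < n + 1 := by
    have h5 := mul_le_mul_of_nonneg_left h3 hq'.le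
    have h6 : (p : ℝ) * x.1 ≤ q * β * x.1 := mul_le_mul_of_nonneg_right hpq (Nat.cast_nonneg _)
    nlinarith
  have h5 : q * x.2 + p * x.1 < n + 1 := by exact_mod_cast h4
  omega

/-- the count for a rational slope -/
theorem cnt_rat {α : ℝ} {p q : ℕ} (hp : 0 < p) (hq : 0 < q) (hα : 0 ≤ α) :
    cnt ((p : ℝ) / q) α = cn p q ⌊α * √((p : ℝ) * q)⌋₊ := by
  unfold cnt cn
  congr 1
  ext x
  simp only [Set.mem_ofPred_eq]
  have hq' : (0 : ℝ) < q := by exact_mod_cast hq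
  have hp' : (0 : ℝ) < p := by exact_mod_cast hp
  have e : √((p : ℝ) * q) = q * √((p : ℝ) / q) := by
    have : (p : ℝ) * q = q ^ 2 * (p / q) := by field_simp
    rw [this, Real.sqrt_mul (by positivity), Real.sqrt_sq hq'.le]
  have key : (x.2 : ℝ) ≤ α * √((p : ℝ) / q) - x.1 * (p / q) ↔
      q * x.2 + p * x.1 ≤ ⌊α * √((p : ℝ) * q)⌋₊ := by
    rw [Nat.le_floor_iff (by positivity), e]
    push_cast
    constructor
    · intro h
      have := mul_le_mul_of_nonneg_left h hq'.le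
      have e2 : (q : ℝ) * (α * √((p : ℝ) / q) - x.1 * (p / q)) =
        α * (q * √((p : ℝ) / q)) - p * x.1 := by field_simp
      linarith
    · intro h
      have e2 : (q : ℝ) * (α * √((p : ℝ) / q) - x.1 * (p / q)) =
        α * (q * √((p : ℝ) / q)) - p * x.1 := by field_simp
      have : (q : ℝ) * x.2 ≤ q * (α * √((p : ℝ) / q) - x.1 * (p / q)) := by linarith
      exact le_of_mul_le_mul_left this hq'
  tauto

end Pool.Agent.E8helper63.LT
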