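import Mathlib
import Pool.Agent.E8helper63.LT.Basic

/-!
# Lattice points in right triangles: sums over blocks of `q` columns
-/

set_option autoImplicit false

open Finset

namespace Pool.Agent.E8helper63.LT

/-- the residues of `n - p, n - 2 p, …, n - q p` modulo `q` -/
theorem sum_mod {p q : ℕ} (hq : 0 < q) (hpq : Nat.Coprime p q) (n : ℤ) :
    2 * ∑ j ∈ range q, (n - ((j : ℤ) + 1) * p) % (q : ℤ) = q * ((q : ℤ) - 1) := by
  have hq' : (0 : ℤ) < q := by exact_mod_cast hq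
  have hnn : ∀ j : ℕ, 0 ≤ (n - ((j : ℤ) + 1) * p) % (q : ℤ) := fun j => Int.emod_nonneg _ hq'.ne'
  have hlt : ∀ j : ℕ, (n - ((j : ℤ) + 1) * p) % (q : ℤ) < q := fun j => Int.emod_lt_of_pos _ hq'
  set f : ℕ → ℕ := fun j => ((n - ((j : ℤ) + 1) * p) % (q : ℤ)).toNat with hf
  have hfc : ∀ j, (f j : ℤ) = (n - ((j : ℤ) + 1) * p) % (q : ℤ) := fun j => Int.toNat_of_nonneg (hnn j)
  have hinj : Set.InjOn f (range q : Set ℕ) := by
    intro i hi j hj hij
    have h1 : (n - ((i : ℤ) + 1) * p) % (q : ℤ) = (n - ((j : ℤ) + 1) * p) % (q : ℤ) := by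
      rw [← hfc, ← hfc, hij]
    have h2 : (q : ℤ) ∣ (n - ((j : ℤ) + 1) * p) - (n - ((i : ℤ) + 1) * p) := Int.ModEq.dvd h1
    have h3 : (n - ((j : ℤ) + 1) * p) - (n - ((i : ℤ) + 1) * p) = ((i : ℤ) - j) * p := by ring
    rw [h3] at h2
    have hc : IsCoprime (q : ℤ) (p : ℤ) := Nat.isCoprime_iff_coprime.2 hpq.symm
    have h4 : (q : ℤ) ∣ (i : ℤ) - j := hc.dvd_of_dvd_mul_right h2
    rw [coe_range, Set.mem_Iio] at hi hj
    have h5 : |(i : ℤ) - j| < q := by
      rw [abs_lt]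
      constructor <;> omega
    have h6 := Int.eq_zero_of_abs_lt_dvd h4 h5
    omega
  have himg : (range q).image f = range q := by
    apply eq_of_subset_of_card_le
    · intro x hx
      rw [mem_image] at hx
      obtain ⟨j, _, rfl⟩ := hx
      rw [mem_range]
      have := hlt j
      rw [← hfc] at this
      exact_mod_cast this
    · rw [card_image_of_injOn hinj]
  have h1 : ∑ j ∈ range q, (n - ((j : ℤ) + 1) * p) % (q : ℤ) = ∑ j ∈ range q, (f j : ℤ) :=
    sum_congr rfl fun j _ => (hfc j).symm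
  have h2 : ∑ j ∈ range q, f j = ∑ x ∈ range q, x := by
    conv_rhs => rw [← himg]
    rw [sum_image hinj]
  have h3 : (∑ x ∈ range q, x) * 2 = q * (q - 1) := sum_range_id_mul_two q
  rw [h1, ← Nat.cast_sum, h2]
  zify [hq] at h3
  push_cast
  linarith

theorem sum_lin (q : ℕ) (n p : ℤ) :
    2 * ∑ j ∈ range q, (n - ((j : ℤ) + 1) * p) = 2 * (q * n) - p * (q * ((q : ℤ) + 1)) := by
  induction q with
  | zero => simp
  | succ q ih =>
    rw [sum_range_succ, mul_add, ih]
    push_cast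
    ring

/-- the sum of `⌊(n - j p) / q⌋` over a block -/
theorem block {p q : ℕ} (hq : 0 < q) (hpq : Nat.Coprime p q) (n : ℤ) :
    2 * ∑ j ∈ range q, (n - ((j : ℤ) + 1) * p) / (q : ℤ) = 2 * n - (p * q + p + q - 1) := by
  have hq' : (0 : ℤ) < q := by exact_mod_cast hq
  have h1 : ∀ j : ℕ, (n - ((j : ℤ) + 1) * p) =
      (n - ((j : ℤ) + 1) * p) % (q : ℤ) + q * ((n - ((j : ℤ) + 1) * p) / (q : ℤ)) := fun j =>
    (Int.emod_add_mul_ediv _ _).symm
  have h2 : ∑ j ∈ range q, (n - ((j : ℤ) + 1) * p) =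
      ∑ j ∈ range q, (n - ((j : ℤ) + 1) * p) % (q : ℤ) +
        q * ∑ j ∈ range q, (n - ((j : ℤ) + 1) * p) / (q : ℤ) := by
    rw [mul_sum, ← sum_add_distrib]
    exact sum_congr rfl fun j _ => h1 j
  have h3 := sum_mod hq hpq n
  have h4 := sum_lin q n p
  have h5 : (q : ℤ) * (2 * ∑ j ∈ range q, (n - ((j : ℤ) + 1) * p) / (q : ℤ)) =
      q * (2 * n - (p * q + p + q - 1)) := by
    linear_combination h4 - 2 * h2 - h3
  exact mul_left_cancel₀ hq'.ne' h5

theorem Icc_range (K : ℕ) (f : ℕ → ℕ) : ∑ k ∈ Icc 1 K, f k = ∑ k ∈ range K, f (k + 1) := by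
  induction K with
  | zero => simp
  | succ K ih => rw [sum_Icc_succ_top (by omega), sum_range_succ, ih]

/-- the recursion for the count of the pairs with `q m + p k ≤ n` -/
theorem cn_add {p q : ℕ} (hp : 0 < p) (hq : 0 < q) (hpq : Nat.Coprime p q) (n : ℕ) :
    (cn p q (n + p * q) : ℝ) = cn p q n + (n - ((p : ℝ) + q - 1) / 2) + (p * q : ℝ) / 2 := by
  have e1 : cn p q (n + p * q) = ∑ k ∈ range (q + (n + p * q)), (n + p * q - p * (k + 1)) / q := by
    rw [cn_eq_sum hp hq (K := q + (n + p * q)) (by omega), Icc_range]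
  have e2 : cn p q n = ∑ k ∈ range (n + p * q), (n - p * (k + 1)) / q := by
    rw [cn_eq_sum hp hq (K := n + p * q) (by omega), Icc_range]
  rw [sum_range_add] at e1
  have e3 : ∀ k, (n + p * q - p * (q + k + 1)) / q = (n - p * (k + 1)) / q := by
    intro k
    congr 1
    have : p * (q + k + 1) = p * q + p * (k + 1) := by ring
    omega
  rw [sum_congr rfl (fun k _ => e3 k), ← e2] at e1
  have e4 : ((∑ k ∈ range q, (n + p * q - p * (k + 1)) / q : ℕ) : ℤ) =
      ∑ j ∈ range q, (((n : ℤ) + p * q) - ((j : ℤ) + 1) * p) / (q : ℤ) := by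
    push_cast
    refine sum_congr rfl fun j hj => ?_
    rw [mem_range] at hj
    have h1 : p * (j + 1) ≤ n + p * q := by
      have : p * (j + 1) ≤ p * q := Nat.mul_le_mul_left p hj
      omega
    rw [Nat.cast_sub h1]
    push_cast
    ring_nf
  have e5 := block hq hpq ((n : ℤ) + p * q)
  rw [← e4] at e5
  rw [e1, Nat.cast_add]
  generalize (∑ k ∈ range q, (n + p * q - p * (k + 1)) / q) = A at e5 ⊢
  have e6 := congrArg (fun z : ℤ => (z : ℝ)) e5
  push_cast at e6
  linarith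

/-- closed form along the multiples of `p q` -/
theorem cn_mul {p q : ℕ} (hp : 0 < p) (hq : 0 < q) (hpq : Nat.Coprime p q) (n j : ℕ) :
    (cn p q (n + p * q * j) : ℝ) = cn p q n + j * (n - ((p : ℝ) + q - 1) / 2) +
      (p * q : ℝ) * j ^ 2 / 2 := by
  induction j with
  | zero => simp
  | succ j ih =>
    have h := cn_add hp hq hpq (n + p * q * j)
    have e : n + p * q * (j + 1) = n + p * q * j + p * q := by ring
    rw [e, h, ih]
    push_cast
    ring

end Pool.Agent.E8helper63.LT
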