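import Mathlib

/-!
# Sums of fractional parts along arithmetic progressions: lower bounds
-/

set_option autoImplicit false

open Finset

namespace Pool.Agent.E8helper63.LT

theorem sum_fract_nonneg (x δ : ℝ) (I : ℕ) : 0 ≤ ∑ i ∈ range I, Int.fract (x - i * δ) :=
  sum_nonneg fun _ _ => Int.fract_nonneg _

/-- pairing the terms of a progression -/
theorem sum_fract_pair (x δ : ℝ) (I : ℕ) :
    (I : ℝ) / 2 * Int.fract (2 * x - (I - 1) * δ) ≤ ∑ i ∈ range I, Int.fract (x - i * δ) := by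
  have h1 : ∑ i ∈ range I, Int.fract (x - ((I - 1 - i : ℕ) : ℝ) * δ) =
      ∑ i ∈ range I, Int.fract (x - i * δ) :=
    sum_range_reflect (fun i : ℕ => Int.fract (x - (i : ℝ) * δ)) I
  have h2 : ∑ _i ∈ range I, Int.fract (2 * x - (I - 1) * δ) ≤
      ∑ i ∈ range I, (Int.fract (x - i * δ) + Int.fract (x - ((I - 1 - i : ℕ) : ℝ) * δ)) := by
    refine sum_le_sum fun i hi => ?_
    rw [mem_range] at hi
    have h3 : ((I - 1 - i : ℕ) : ℝ) = I - 1 - i := by
      rw [Nat.sub_sub, Nat.cast_sub (by omega)]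
      push_cast
      ring
    have h4 : 2 * x - (I - 1) * δ = (x - i * δ) + (x - ((I - 1 - i : ℕ) : ℝ) * δ) := by
      rw [h3]; ring
    rw [h4]
    exact Int.fract_add_le _ _
  rw [sum_add_distrib, h1, sum_const, card_range, nsmul_eq_mul] at h2
  linarith

/-- the antiderivative of `{t} - 1/2` -/
noncomputable def Phi (t : ℝ) : ℝ := -(Int.fract t * (1 - Int.fract t)) / 2

theorem fract_step {t δ : ℝ} (hδ : 0 < δ) (hδ1 : δ ≤ 1) :
    (Phi t - δ * ⌊t⌋) - (Phi (t - δ) - δ * ⌊t - δ⌋) + δ / 2 ≤ δ * Int.fract t := by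
  have hf0 := Int.fract_nonneg t
  have hf1 := Int.fract_lt_one t
  have hft : t = ⌊t⌋ + Int.fract t := (Int.floor_add_fract t).symm
  unfold Phi
  rcases le_or_gt δ (Int.fract t) with h | h
  · have h1 : ⌊t - δ⌋ = ⌊t⌋ := by
      rw [Int.floor_eq_iff]
      constructor <;> linarith
    have h2 : Int.fract (t - δ) = Int.fract t - δ := by
      unfold Int.fract
      rw [h1]
      ring
    rw [h1, h2]
    nlinarith [sq_nonneg δ]
  · have h1 : ⌊t - δ⌋ = ⌊t⌋ - 1 := by
      rw [Int.floor_eq_iff]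
      push_cast
      constructor <;> linarith
    have h2 : Int.fract (t - δ) = Int.fract t - δ + 1 := by
      unfold Int.fract
      rw [h1]
      push_cast
      ring
    rw [h1, h2]
    push_cast
    nlinarith [sq_nonneg δ]

theorem sum_fract_Phi (x : ℝ) {δ : ℝ} (hδ : 0 < δ) (hδ1 : δ ≤ 1) (I : ℕ) :
    (Phi x - δ * ⌊x⌋) - (Phi (x - I * δ) - δ * ⌊x - I * δ⌋) + I * δ / 2 ≤
      δ * ∑ i ∈ range I, Int.fract (x - i * δ) := by
  induction I with
  | zero => simp
  | succ I ih =>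
    rw [sum_range_succ, mul_add]
    have h := fract_step (t := x - I * δ) hδ hδ1
    have e : x - I * δ - δ = x - ((I + 1 : ℕ) : ℝ) * δ := by push_cast; ring
    rw [e] at h
    push_cast at h ⊢
    linarith

/-- **Euler-Maclaurin bound.** -/
theorem sum_fract_ge (x : ℝ) {δ : ℝ} (hδ : 0 < δ) (hδ1 : δ ≤ 1) (I : ℕ) :
    (I : ℝ) / 2 - (Int.fract x * (1 - Int.fract x) -
      Int.fract (x - I * δ) * (1 - Int.fract (x - I * δ))) / (2 * δ) - (I * δ + 1) ≤
      ∑ i ∈ range I, Int.fract (x - i * δ) := by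
  have h := sum_fract_Phi x hδ hδ1 I
  have h1 : (⌊x⌋ : ℝ) - ⌊x - I * δ⌋ ≤ I * δ + 1 := by
    have h2 := Int.floor_le x
    have h3 := Int.lt_floor_add_one (x - I * δ)
    linarith
  unfold Phi at h
  have h2 : δ * ((I : ℝ) / 2 - (Int.fract x * (1 - Int.fract x) -
      Int.fract (x - I * δ) * (1 - Int.fract (x - I * δ))) / (2 * δ) - (I * δ + 1)) ≤
      δ * ∑ i ∈ range I, Int.fract (x - i * δ) := by
    refine le_trans ?_ h
    have e : δ * ((I : ℝ) / 2 - (Int.fract x * (1 - Int.fract x) -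
      Int.fract (x - I * δ) * (1 - Int.fract (x - I * δ))) / (2 * δ) - (I * δ + 1)) =
      I * δ / 2 - (Int.fract x * (1 - Int.fract x) -
      Int.fract (x - I * δ) * (1 - Int.fract (x - I * δ))) / 2 - δ * (I * δ + 1) := by
      field_simp
    rw [e]
    have := mul_le_mul_of_nonneg_left h1 hδ.le
    linarith
  exact le_of_mul_le_mul_left h2 hδ

/-- the boundary terms are at most `ρ (1 - ρ)` -/
theorem fract_boundary (x y : ℝ) :
    Int.fract x * (1 - Int.fract x) - Int.fract y * (1 - Int.fract y) ≤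
      Int.fract (x + y) * (1 - Int.fract (x + y)) := by
  have hf0 := Int.fract_nonneg x
  have hf1 := Int.fract_lt_one x
  have hg0 := Int.fract_nonneg y
  have hg1 := Int.fract_lt_one y
  have hx : x = ⌊x⌋ + Int.fract x := (Int.floor_add_fract x).symm
  have hy : y = ⌊y⌋ + Int.fract y := (Int.floor_add_fract y).symm
  set f := Int.fract x
  set g := Int.fract y
  rcases lt_or_ge (f + g) 1 with h | h
  · have h1 : Int.fract (x + y) = f + g := by
      rw [Int.fract_eq_iff]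
      refine ⟨by linarith, h, ⌊x⌋ + ⌊y⌋, ?_⟩
      push_cast
      linarith
    rw [h1]
    nlinarith
  · have h1 : Int.fract (x + y) = f + g - 1 := by
      rw [Int.fract_eq_iff]
      refine ⟨by linarith, by linarith, ⌊x⌋ + ⌊y⌋ + 1, ?_⟩
      push_cast
      linarith
    rw [h1]
    nlinarith

theorem sum_fract_rho (x : ℝ) {δ : ℝ} (hδ : 0 < δ) (hδ1 : δ ≤ 1) (I : ℕ) :
    (I : ℝ) / 2 - Int.fract (2 * x - I * δ) * (1 - Int.fract (2 * x - I * δ)) / (2 * δ) -
      (I * δ + 1) ≤ ∑ i ∈ range I, Int.fract (x - i * δ) := by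
  refine le_trans ?_ (sum_fract_ge x hδ hδ1 I)
  have h := fract_boundary x (x - I * δ)
  have e : x + (x - I * δ) = 2 * x - I * δ := by ring
  rw [e] at h
  have h2 := div_le_div_of_nonneg_right h (by positivity : (0 : ℝ) ≤ 2 * δ)
  linarith

theorem sum_fract_quarter (x : ℝ) {δ : ℝ} (hδ : 0 < δ) (hδ1 : δ ≤ 1) (I : ℕ) :
    (I : ℝ) / 2 - 1 / (8 * δ) - (I * δ + 1) ≤ ∑ i ∈ range I, Int.fract (x - i * δ) := by
  refine le_trans ?_ (sum_fract_rho x hδ hδ1 I)
  set ρ := Int.fract (2 * x - I * δ)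
  have h1 : ρ * (1 - ρ) ≤ 1 / 4 := by nlinarith [sq_nonneg (ρ - 1 / 2)]
  have h2 := div_le_div_of_nonneg_right h1 (by positivity : (0 : ℝ) ≤ 2 * δ)
  have e : (1 : ℝ) / 4 / (2 * δ) = 1 / (8 * δ) := by field_simp; norm_num
  rw [e] at h2
  linarith

end Pool.Agent.E8helper63.LT
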