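import Mathlib
import Pool.Agent.E8helper63.LT.Block

/-!
# Lattice points in right triangles: the upper bound near a rational slope
-/

set_option autoImplicit false

open Finset

namespace Pool.Agent.E8helper63.LT

theorem sum_range_blocks {M : Type*} [AddCommMonoid M] (I q : ℕ) (f : ℕ → M) :
    ∑ k ∈ range (I * q), f k = ∑ i ∈ range I, ∑ j ∈ range q, f (i * q + j) := by
  induction I with
  | zero => simp
  | succ I ih => rw [add_mul, one_mul, sum_range_add, ih, sum_range_succ]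

theorem sum_arith (I : ℕ) (A B : ℝ) :
    ∑ i ∈ range I, (A - i * B) = I * A - B * (I * (I - 1) / 2) := by
  induction I with
  | zero => simp
  | succ I ih =>
    rw [sum_range_succ, ih]
    push_cast
    ring

theorem cnt_upper {β α : ℝ} {p q : ℕ} (hβ : 0 < β) (hα : 0 ≤ α) (hp : 0 < p) (hq : 0 < q)
    (hpq : Nat.Coprime p q) (h : (p : ℝ) ≤ q * β) {R δ : ℝ} (hR : R = q * √β)
    (hδ : δ = R ^ 2 - p * q) {I : ℕ} (hI : I = ⌊α / R⌋₊) :
    (cnt β α : ℝ) ≤ α ^ 2 / 2 - α * (p + q - 1 - δ) / (2 * R) -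
      ∑ i ∈ range I, Int.fract (α * R - i * δ) + ((p : ℝ) * q + p + q - 1) / 2 + R ^ 2 := by
  have hq' : (0 : ℝ) < q := by exact_mod_cast hq
  have hq1 : (1 : ℝ) ≤ q := by exact_mod_cast hq
  have hp1 : (1 : ℝ) ≤ p := by exact_mod_cast hp
  set s := √β with hsd
  have hs : 0 < s := Real.sqrt_pos.2 hβ
  have hsq : s * s = β := Real.mul_self_sqrt hβ.le
  have hRpos : 0 < R := by rw [hR]; positivity
  have hR2 : R ^ 2 = q ^ 2 * β := by rw [hR, mul_pow, sq s, hsq]
  set K := ⌊α / s⌋₊ with hKd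
  have hIK : I = K / q := by
    rw [hI, hKd, ← Nat.floor_div_natCast, hR, div_div, mul_comm (q : ℝ)]
  have hK1 : (K : ℝ) ≤ α / s := Nat.floor_le (div_nonneg hα hs.le)
  have hK2 : α / s < K + 1 := Nat.lt_floor_add_one _
  have hK1' : (K : ℝ) * s ≤ α := by rwa [le_div_iff₀ hs] at hK1
  have hK2' : α < (K + 1) * s := by rwa [div_lt_iff₀ hs] at hK2
  have hK3 : α * s < (K + 1) * β := by
    have := mul_lt_mul_of_pos_right hK2' hs
    rwa [mul_assoc, hsq] at this
  have hK4 : (K : ℝ) * β ≤ α * s := by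
    have := mul_le_mul_of_nonneg_right hK1' hs.le
    rwa [mul_assoc, hsq] at this
  set r := K % q with hr
  have hrq : r < q := Nat.mod_lt _ hq
  have hKr : K = I * q + r := by
    rw [hIK, hr, mul_comm]
    exact (Nat.div_add_mod _ _).symm
  have hKle : I * q ≤ K := by omega
  set C : ℝ := ((p : ℝ) * q + p + q - 1) / 2 with hC
  have hC0 : 0 ≤ C := by
    have : (0 : ℝ) ≤ p * q := by positivity
    rw [hC]; linarith
  -- the blocks
  have hblock : ∀ i ∈ range I, ∑ j ∈ range q, ((⌊α * s - ((i * q + j + 1 : ℕ) : ℝ) * β⌋₊ : ℕ) : ℝ) ≤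
      (α * R - i * δ) - Int.fract (α * R - i * δ) - p * q * i - C := by
    intro i hi
    rw [mem_range] at hi
    have hz : ∀ j ∈ range q, ((⌊α * s - ((i * q + j + 1 : ℕ) : ℝ) * β⌋₊ : ℕ) : ℤ) ≤
        ((⌊α * R - i * δ⌋ - p * q * i) - ((j : ℤ) + 1) * p) / (q : ℤ) := by
      intro j hj
      rw [mem_range] at hj
      rw [Int.le_ediv_iff_mul_le (by exact_mod_cast hq)]
      set m := ⌊α * s - ((i * q + j + 1 : ℕ) : ℝ) * β⌋₊ with hm
      have hle : i * q + j + 1 ≤ K := by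
        have : (i + 1) * q ≤ I * q := Nat.mul_le_mul_right _ hi
        rw [add_mul, one_mul] at this
        omega
      have hle' : ((i * q + j + 1 : ℕ) : ℝ) ≤ K := by exact_mod_cast hle
      have hy : 0 ≤ α * s - ((i * q + j + 1 : ℕ) : ℝ) * β := by
        have := mul_le_mul_of_nonneg_right hle' hβ.le
        linarith
      have hmy : (m : ℝ) ≤ α * s - ((i * q + j + 1 : ℕ) : ℝ) * β := Nat.floor_le hy
      have hfl : ((m : ℤ) * q + p * q * i + ((j : ℤ) + 1) * p) ≤ ⌊α * R - i * δ⌋ := by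
        apply Int.le_floor.2
        push_cast
        push_cast at hmy
        have h1 := mul_le_mul_of_nonneg_right hmy hq'.le
        have h2 : ((j : ℝ) + 1) * p ≤ (j + 1) * (q * β) :=
          mul_le_mul_of_nonneg_left h (by positivity)
        have h3 : α * R - i * δ = α * s * q - i * q * q * β + p * q * i := by
          rw [hδ, hR2, hR]; ring
        rw [h3]
        nlinarith
      linarith
    have h1 : 2 * ∑ j ∈ range q, ((⌊α * s - ((i * q + j + 1 : ℕ) : ℝ) * β⌋₊ : ℕ) : ℤ) ≤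
        2 * (⌊α * R - i * δ⌋ - p * q * i) - (p * q + p + q - 1) := by
      rw [← block hq hpq]
      exact mul_le_mul_of_nonneg_left (sum_le_sum hz) (by norm_num)
    have h2 : (2 : ℝ) * ∑ j ∈ range q, ((⌊α * s - ((i * q + j + 1 : ℕ) : ℝ) * β⌋₊ : ℕ) : ℝ) ≤
        2 * ((⌊α * R - i * δ⌋ : ℤ) - p * q * i : ℝ) - (p * q + p + q - 1) := by
      exact_mod_cast h1
    have h3 : ((⌊α * R - i * δ⌋ : ℤ) : ℝ) = (α * R - i * δ) - Int.fract (α * R - i * δ) :=
      (Int.self_sub_fract _).symm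
    rw [h3] at h2
    rw [hC]
    linarith
  -- the rest
  have hrest : ∑ j ∈ range r, ((⌊α * s - ((I * q + j + 1 : ℕ) : ℝ) * β⌋₊ : ℕ) : ℝ) ≤ R ^ 2 := by
    have h1 : ∀ j ∈ range r, ((⌊α * s - ((I * q + j + 1 : ℕ) : ℝ) * β⌋₊ : ℕ) : ℝ) ≤ q * β := by
      intro j hj
      rw [mem_range] at hj
      have hle' : ((I * q + j + 1 : ℕ) : ℝ) ≤ K := by
        have : I * q + j + 1 ≤ K := by omega
        exact_mod_cast this
      have hy : 0 ≤ α * s - ((I * q + j + 1 : ℕ) : ℝ) * β := by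
        have := mul_le_mul_of_nonneg_right hle' hβ.le
        linarith
      refine (Nat.floor_le hy).trans ?_
      have h2 : (K : ℝ) + 1 ≤ I * q + q := by
        have : K + 1 ≤ I * q + q := by omega
        exact_mod_cast this
      have h3 := mul_le_mul_of_nonneg_right h2 hβ.le
      push_cast
      have h4 : 0 ≤ (j : ℝ) * β := by positivity
      nlinarith
    calc ∑ j ∈ range r, ((⌊α * s - ((I * q + j + 1 : ℕ) : ℝ) * β⌋₊ : ℕ) : ℝ)
        ≤ ∑ _j ∈ range r, (q * β : ℝ) := sum_le_sum h1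
      _ = r * (q * β) := by rw [sum_const, card_range, nsmul_eq_mul]
      _ ≤ q * (q * β) := by
          apply mul_le_mul_of_nonneg_right _ (by positivity)
          exact_mod_cast hrq.le
      _ = R ^ 2 := by rw [hR2]; ring
  have hcnt : (cnt β α : ℝ) = ∑ i ∈ range I, ∑ j ∈ range q,
      ((⌊α * s - ((i * q + j + 1 : ℕ) : ℝ) * β⌋₊ : ℕ) : ℝ) +
      ∑ j ∈ range r, ((⌊α * s - ((I * q + j + 1 : ℕ) : ℝ) * β⌋₊ : ℕ) : ℝ) := by
    rw [cnt_eq_sum hβ hK3, Icc_range]
    rw [show range K = range (I * q + r) by rw [← hKr], sum_range_add, sum_range_blocks]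
    push_cast
    rfl
  rw [hcnt]
  have hsum : ∑ i ∈ range I, ((α * R - i * δ) - Int.fract (α * R - i * δ) - p * q * i - C) =
      (I * (α * R) - R ^ 2 * (I * (I - 1) / 2)) - ∑ i ∈ range I, Int.fract (α * R - i * δ) - I * C := by
    rw [← sum_arith I (α * R) (R ^ 2)]
    rw [← sum_sub_distrib]
    have : (I : ℝ) * C = ∑ _i ∈ range I, C := by rw [sum_const, card_range, nsmul_eq_mul]
    rw [this, ← sum_sub_distrib]
    refine sum_congr rfl fun i _ => ?_
    rw [hδ]
    ring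
  have hmain := (sum_le_sum hblock).trans_eq hsum
  -- algebra
  set z := α / R with hz
  have hαz : α = z * R := by rw [hz]; field_simp
  have hz0 : 0 ≤ z := div_nonneg hα hRpos.le
  have hI1 : (I : ℝ) ≤ z := by rw [hI]; exact Nat.floor_le hz0
  have hI2 : z < I + 1 := by rw [hI]; exact Nat.lt_floor_add_one _
  have halg : I * (α * R) - R ^ 2 * (I * (I - 1) / 2) - I * C ≤
      α ^ 2 / 2 - α * (p + q - 1 - δ) / (2 * R) + C := by
    have e1 : α * (p + q - 1 - δ) / (2 * R) = z * (p + q - 1 - δ) / 2 := by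
      rw [hαz]; field_simp
    rw [e1, hδ]
    have e2 : α ^ 2 / 2 - z * (p + q - 1 - (R ^ 2 - p * q)) / 2 + C -
        (I * (α * R) - R ^ 2 * (I * (I - 1) / 2) - I * C) =
        R ^ 2 * ((z - I) ^ 2 + (z - I)) / 2 + C * (1 - (z - I)) := by
      rw [hC, hαz]; ring
    have h1 : 0 ≤ R ^ 2 * ((z - I) ^ 2 + (z - I)) / 2 := by
      have : 0 ≤ z - I := by linarith
      positivity
    have h2 : 0 ≤ C * (1 - (z - I)) := mul_nonneg hC0 (by linarith)
    linarith
  linarith

end Pool.Agent.E8helper63.LT
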