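import Mathlib
import Pool.Agent.E8helper63.LT.Upper
import Pool.Agent.E8helper63.LT.Frac

/-!
# Lattice points in right triangles: slopes close to a rational number
-/

set_option autoImplicit false

open Finset Filter

namespace Pool.Agent.E8helper63.LT

/-- `q √β` -/
noncomputable def RR (q : ℕ) (β : ℝ) : ℝ := q * √β

/-- `q^2 β - p q` -/
noncomputable def dl (p q : ℕ) (β : ℝ) : ℝ := RR q β ^ 2 - p * q

/-- the number of blocks -/
noncomputable def nb (q : ℕ) (β α : ℝ) : ℕ := ⌊α / RR q β⌋₊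

/-- the sum of the fractional parts -/
noncomputable def ss (p q : ℕ) (β α : ℝ) : ℝ :=
  ∑ i ∈ range (nb q β α), Int.fract (α * RR q β - i * dl p q β)

/-- `√(p q)` -/
noncomputable def rr (p q : ℕ) : ℝ := √((p : ℝ) * q)

theorem rr_sq (p q : ℕ) : rr p q ^ 2 = p * q := Real.sq_sqrt (by positivity)

theorem one_le_rr {p q : ℕ} (hp : 0 < p) (hq : 0 < q) : 1 ≤ rr p q := by
  unfold rr
  rw [Real.one_le_sqrt]
  have h1 : (1 : ℝ) ≤ p := by exact_mod_cast hp
  have h2 : (1 : ℝ) ≤ q := by exact_mod_cast hq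
  nlinarith

theorem two_rr_le (p q : ℕ) : 2 * rr p q ≤ p + q := by
  have h := rr_sq p q
  have h0 : 0 ≤ rr p q := Real.sqrt_nonneg _
  have h1 : (0 : ℝ) ≤ (p : ℝ) + q := by positivity
  nlinarith [sq_nonneg ((p : ℝ) - q), sq_nonneg ((p : ℝ) + q - 2 * rr p q)]

theorem RR_pos {q : ℕ} (hq : 0 < q) {β : ℝ} (hβ : 0 < β) : 0 < RR q β := by
  unfold RR
  have : (0 : ℝ) < q := by exact_mod_cast hq
  have := Real.sqrt_pos.2 hβ
  positivity

theorem RR_sq {q : ℕ} {β : ℝ} (hβ : 0 < β) : RR q β ^ 2 = q ^ 2 * β := by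
  unfold RR
  rw [mul_pow, Real.sq_sqrt hβ.le]

theorem dl_nonneg {p q : ℕ} {β : ℝ} (hβ : 0 < β) (h : (p : ℝ) ≤ q * β) :
    0 ≤ dl p q β := by
  unfold dl
  rw [RR_sq hβ]
  have : (0 : ℝ) ≤ q := Nat.cast_nonneg _
  nlinarith

theorem rr_le_RR {p q : ℕ} (hq : 0 < q) {β : ℝ} (hβ : 0 < β) (h : (p : ℝ) ≤ q * β) :
    rr p q ≤ RR q β := by
  have h1 := dl_nonneg hβ h
  unfold dl at h1
  rw [← rr_sq] at h1
  have h0 : 0 ≤ rr p q := Real.sqrt_nonneg _
  exact (sq_le_sq₀ h0 (RR_pos hq hβ).le).1 (by linarith)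

/-- `R - r ≤ δ / 2` -/
theorem RR_sub_le {p q : ℕ} (hp : 0 < p) (hq : 0 < q) {β : ℝ} (hβ : 0 < β) (h : (p : ℝ) ≤ q * β) :
    RR q β - rr p q ≤ dl p q β / 2 := by
  have h1 := rr_le_RR hq hβ h
  have h2 := one_le_rr hp hq
  have h3 : dl p q β = (RR q β - rr p q) * (RR q β + rr p q) := by
    unfold dl
    rw [← rr_sq]
    ring
  rw [h3]
  nlinarith

theorem cnt_upper' {β α : ℝ} {p q : ℕ} (hβ : 0 < β) (hα : 0 ≤ α) (hp : 0 < p) (hq : 0 < q)
    (hpq : Nat.Coprime p q) (h : (p : ℝ) ≤ q * β) :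
    (cnt β α : ℝ) ≤ α ^ 2 / 2 - α * (p + q - 1 - dl p q β) / (2 * RR q β) -
      ss p q β α + ((p : ℝ) * q + p + q - 1) / 2 + RR q β ^ 2 :=
  cnt_upper hβ hα hp hq hpq h rfl rfl rfl

/-- the centre of the window is close to `α r` -/
theorem window {p q : ℕ} (hp : 0 < p) (hq : 0 < q) (C : ℝ) {ε : ℝ} (hε : 0 < ε) :
    ∀ᶠ α : ℝ in atTop, ∀ β : ℝ, 0 < β → (p : ℝ) ≤ q * β → dl p q β ≤ 1 →
      nb q β α * dl p q β ≤ C →
      dl p q β ≤ ε ∧
      2 * (α * rr p q) ≤ 2 * (α * RR q β) - nb q β α * dl p q β ∧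
      2 * (α * RR q β) - (nb q β α - 1) * dl p q β ≤ 2 * (α * rr p q) + ε := by
  have hr1 := one_le_rr hp hq
  set r := rr p q with hr
  set A : ℝ := |C| + 3 with hA
  have hA3 : 3 ≤ A := by have := abs_nonneg C; linarith
  filter_upwards [eventually_ge_atTop (2 * (r + 1)),
    eventually_ge_atTop (2 * A * (r + 1) * (A / ε)),
    eventually_ge_atTop (2 * A * (r + 1) * (1 / ε))] with α h1 h2 h3 β hβ h hd1 hC
  have hd0 := dl_nonneg hβ h
  have hR0 := RR_pos hq hβ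
  have hrR := rr_le_RR hq hβ h
  have hsub := RR_sub_le hp hq hβ h
  rw [← hr] at hrR hsub
  set R := RR q β with hRd
  set δ := dl p q β with hδ
  have hα0 : 0 < α := by linarith
  have hRr : R ≤ r + 1 := by linarith
  set z := α / R with hz
  have hαz : α = z * R := by rw [hz]; field_simp
  have hz2 : 2 ≤ z := by
    rw [hz, le_div_iff₀ hR0]
    linarith
  have hI1 : (nb q β α : ℝ) ≤ z := Nat.floor_le (by positivity)
  have hI2 : z < nb q β α + 1 := Nat.lt_floor_add_one _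
  set I : ℝ := (nb q β α : ℝ) with hI
  have hzI : z ≤ 2 * I := by linarith
  have hzδ : z * δ ≤ 2 * A := by
    have h4 := mul_le_mul_of_nonneg_right hzI hd0
    have h5 := le_abs_self C
    nlinarith
  have hαδ : α * δ ≤ 2 * A * (r + 1) := by
    rw [hαz]
    have h4 : z * R * δ = (z * δ) * R := by ring
    rw [h4]
    have h5 := mul_le_mul_of_nonneg_right hzδ hR0.le
    have h6 := mul_le_mul_of_nonneg_left hRr (by positivity : (0 : ℝ) ≤ 2 * A)
    linarith
  have hδA : δ * A ≤ ε := by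
    have h4 : α * (δ * A) ≤ α * ε := by
      have h5 : 2 * A * (r + 1) * (A / ε) * ε = 2 * A * (r + 1) * A := by field_simp
      have h6 := mul_le_mul_of_nonneg_right h2 hε.le
      have h7 := mul_le_mul_of_nonneg_right hαδ (by linarith : (0 : ℝ) ≤ A)
      nlinarith
    exact le_of_mul_le_mul_left h4 hα0
  have hδε : δ ≤ ε := by nlinarith
  have hδeq : δ = (R - r) * (R + r) := by
    rw [hδ, dl, ← rr_sq, ← hRd, ← hr]
    ring
  have key : 2 * (α * R) - z * δ - 2 * (α * r) = z * (R - r) ^ 2 := by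
    rw [hδeq, hαz]
    ring
  have hsq : 0 ≤ z * (R - r) ^ 2 := by positivity
  have hsq2 : z * (R - r) ^ 2 ≤ A * δ := by
    have h4 : (R - r) ^ 2 ≤ (δ / 2) ^ 2 := by
      apply pow_le_pow_left₀ (by linarith) hsub
    have h5 : z * (R - r) ^ 2 ≤ z * (δ / 2) ^ 2 := mul_le_mul_of_nonneg_left h4 (by linarith)
    have h6 : z * (δ / 2) ^ 2 = (z * δ) * δ / 4 := by ring
    have h7 : (z * δ) * δ ≤ 2 * A * δ := mul_le_mul_of_nonneg_right hzδ hd0
    calc z * (R - r) ^ 2 ≤ z * (δ / 2) ^ 2 := h5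
      _ = (z * δ) * δ / 4 := h6
      _ ≤ (2 * A * δ) / 4 := div_le_div_of_nonneg_right h7 (by norm_num)
      _ ≤ A * δ := by nlinarith
  refine ⟨hδε, ?_, ?_⟩
  · have := mul_le_mul_of_nonneg_right hI1 hd0
    linarith
  · -- the upper bound needs the sharper constant
    have h4 : (z - I) * δ ≤ δ := by
      have : (z - I) * δ ≤ 1 * δ := mul_le_mul_of_nonneg_right (by linarith) hd0
      linarith
    have hzδ' : z * δ ≤ 2 * |C| := by
      have h5 := mul_le_mul_of_nonneg_right hzI hd0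
      have h6 := le_abs_self C
      nlinarith
    have h5 : z * (R - r) ^ 2 ≤ |C| / 2 * δ := by
      have h6 : (R - r) ^ 2 ≤ (δ / 2) ^ 2 := by
        apply pow_le_pow_left₀ (by linarith) hsub
      have h7 : z * (R - r) ^ 2 ≤ z * (δ / 2) ^ 2 := mul_le_mul_of_nonneg_left h6 (by linarith)
      have h8 : z * (δ / 2) ^ 2 = (z * δ) * δ / 4 := by ring
      have h9 : (z * δ) * δ ≤ 2 * |C| * δ := mul_le_mul_of_nonneg_right hzδ' hd0
      calc z * (R - r) ^ 2 ≤ z * (δ / 2) ^ 2 := h7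
        _ = (z * δ) * δ / 4 := h8
        _ ≤ (2 * |C| * δ) / 4 := div_le_div_of_nonneg_right h9 (by norm_num)
        _ = |C| / 2 * δ := by ring
    have h6 : |C| / 2 * δ + 2 * δ ≤ δ * A := by
      rw [hA]
      have h7 := mul_nonneg (abs_nonneg C) hd0
      linarith
    have h7 : (I - 1) * δ = I * δ - δ := by ring
    have h8 : (z - I) * δ = z * δ - I * δ := by ring
    rw [h7]
    rw [h8] at h4
    linarith

end Pool.Agent.E8helper63.LT
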