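import Mathlib
import Pool.Agent.E8helper63.LT.Local

/-!
# Lattice points in right triangles: from sums of fractional parts to counts
-/

set_option autoImplicit false

open Finset Filter

namespace Pool.Agent.E8helper63.LT

/-- facts about `z = α / R` -/
theorem zfacts {p q : ℕ} (hp : 0 < p) (hq : 0 < q) {α β : ℝ} (hβ : 0 < β)
    (h : (p : ℝ) ≤ q * β) (hd1 : dl p q β ≤ 1) (hα : 2 * (rr p q + 1) ≤ α) :
    0 < RR q β ∧ RR q β ≤ rr p q + 1 ∧ α = α / RR q β * RR q β ∧ 2 ≤ α / RR q β ∧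
      (nb q β α : ℝ) ≤ α / RR q β ∧ α / RR q β < nb q β α + 1 ∧
      α / (rr p q + 1) ≤ α / RR q β := by
  have hr1 := one_le_rr hp hq
  have hR0 := RR_pos hq hβ
  have hrR := rr_le_RR hq hβ h
  have hsub := RR_sub_le hp hq hβ h
  have hRr : RR q β ≤ rr p q + 1 := by linarith
  have hα0 : 0 ≤ α := by linarith
  refine ⟨hR0, hRr, by field_simp, ?_, Nat.floor_le (by positivity), Nat.lt_floor_add_one _, ?_⟩
  · rw [le_div_iff₀ hR0]
    linarith
  · exact div_le_div_of_nonneg_left hα0 hR0 hRr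

theorem close_gap {p q : ℕ} (hp : 0 < p) (hq : 0 < q) (hpq : Nat.Coprime p q)
    (t C K g : ℝ) (ht1 : t ≤ 1) (hg : 0 < g)
    (hdg : 0 ≤ t * rr p q - ((p : ℝ) + q - 1) / 2 + g) :
    ∀ᶠ α : ℝ in atTop, ∀ β : ℝ, 0 < β → (p : ℝ) ≤ q * β → dl p q β ≤ 1 →
      nb q β α * dl p q β ≤ C →
      nb q β α * (t * rr p q - ((p : ℝ) + q - 1) / 2 + g) - K ≤ ss p q β α →
      (cnt β α : ℝ) ≤ α ^ 2 / 2 - t * α - 1 := by
  set s : ℝ := t * rr p q - ((p : ℝ) + q - 1) / 2 + g with hs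
  set B : ℝ := 2 * |C| + s + |K| + ((p : ℝ) * q + p + q - 1) / 2 + (rr p q + 1) ^ 2 + 1 with hB
  filter_upwards [eventually_ge_atTop (2 * (rr p q + 1)),
    eventually_ge_atTop (B / g * (rr p q + 1))] with α h1 h2 β hβ h hd1 hC hss
  obtain ⟨hR0, hRr, hαz, hz2, hI1, hI2, hzz⟩ := zfacts hp hq hβ h hd1 h1
  have hd0 := dl_nonneg hβ h
  have hr1 := one_le_rr hp hq
  have hrR := rr_le_RR hq hβ h
  have hsub := RR_sub_le hp hq hβ h
  have hα0 : 0 ≤ α := by linarith
  have hU := cnt_upper' hβ hα0 hp hq hpq h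
  set R := RR q β with hRd
  set r := rr p q with hr
  set δ := dl p q β with hδ
  set z := α / R with hz
  set I : ℝ := (nb q β α : ℝ) with hI
  have hzI : z ≤ 2 * I := by linarith
  have hzδ : z * δ ≤ 2 * |C| := by
    have h4 := mul_le_mul_of_nonneg_right hzI hd0
    have h5 := le_abs_self C
    have h6 : 2 * I * δ = 2 * (I * δ) := by ring
    linarith
  have hzg : B ≤ z * g := by
    have h4 : B / g ≤ α / (r + 1) := by
      rw [le_div_iff₀ (by linarith)]
      exact h2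
    have h5 : B / g ≤ z := h4.trans hzz
    rwa [div_le_iff₀ hg] at h5
  have hR2 : R ^ 2 ≤ (r + 1) ^ 2 := pow_le_pow_left₀ hR0.le hRr 2
  have e1 : α * (p + q - 1 - δ) / (2 * R) = z * (p + q - 1 - δ) / 2 := by
    rw [hz]; field_simp
  rw [e1] at hU
  have hIs : z * s - s ≤ I * s := by
    have : (z - 1) * s ≤ I * s := mul_le_mul_of_nonneg_right (by linarith) hdg
    linarith
  have htα : t * α ≤ t * (z * r) + z * δ / 2 := by
    have h4 : α = z * R := hαz
    have h5 : t * (z * (R - r)) ≤ 1 * (z * (R - r)) :=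
      mul_le_mul_of_nonneg_right ht1 (mul_nonneg (by linarith) (by linarith))
    have h6 : z * (R - r) ≤ z * (δ / 2) := mul_le_mul_of_nonneg_left hsub (by linarith)
    calc t * α = t * (z * r) + t * (z * (R - r)) := by rw [h4]; ring
      _ ≤ t * (z * r) + z * δ / 2 := by linarith
  have hK := le_abs_self K
  have hzs : z * s = t * (z * r) - z * (p + q - 1) / 2 + z * g := by rw [hs]; ring
  have e2 : z * (p + q - 1 - δ) / 2 = z * (p + q - 1) / 2 - z * δ / 2 := by ring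
  rw [e2] at hU
  linarith

/-- the case `d < 0` -/
theorem close_neg {p q : ℕ} (hp : 0 < p) (hq : 0 < q) (hpq : Nat.Coprime p q)
    (t C : ℝ) (ht1 : t ≤ 1) (hd : t * rr p q - ((p : ℝ) + q - 1) / 2 < 0) :
    ∀ᶠ α : ℝ in atTop, ∀ β : ℝ, 0 < β → (p : ℝ) ≤ q * β → dl p q β ≤ 1 →
      nb q β α * dl p q β ≤ C → (cnt β α : ℝ) ≤ α ^ 2 / 2 - t * α - 1 := by
  have h := close_gap hp hq hpq t C 0 (-(t * rr p q - ((p : ℝ) + q - 1) / 2)) ht1
    (by linarith) (by linarith)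
  filter_upwards [h] with α h1 β hβ h2 h3 h4
  apply h1 β hβ h2 h3 h4
  have h5 : t * rr p q - ((p : ℝ) + q - 1) / 2 + -(t * rr p q - ((p : ℝ) + q - 1) / 2) = 0 := by ring
  rw [h5, mul_zero, sub_zero]
  exact sum_fract_nonneg _ _ _

/-- the case when `2 α r` is a bit more than `2 d` modulo one -/
theorem close_other {p q : ℕ} (hp : 0 < p) (hq : 0 < q) (hpq : Nat.Coprime p q)
    (t C η : ℝ) (ht1 : t ≤ 1) (hη : 0 < η)
    (hd : 0 ≤ t * rr p q - ((p : ℝ) + q - 1) / 2) :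
    ∀ᶠ α : ℝ in atTop, ∀ β : ℝ, 0 < β → (p : ℝ) ≤ q * β → dl p q β ≤ 1 →
      nb q β α * dl p q β ≤ C →
      2 * (t * rr p q - ((p : ℝ) + q - 1) / 2 + η) ≤ Int.fract (2 * (α * rr p q)) →
      Int.fract (2 * (α * rr p q)) ≤ 1 - η →
      (cnt β α : ℝ) ≤ α ^ 2 / 2 - t * α - 1 := by
  have h := close_gap hp hq hpq t C 0 η ht1 hη (by linarith)
  have hw := window hp hq C (ε := η / 2) (by linarith)
  filter_upwards [h, hw, eventually_ge_atTop (2 * (rr p q + 1))] with α h1 hw hα β hβ h2 h3 h4 h5 h6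
  apply h1 β hβ h2 h3 h4
  rw [sub_zero]
  obtain ⟨_, hw1, hw2⟩ := hw β hβ h2 h3 h4
  have hd0 := dl_nonneg hβ h2
  refine le_trans ?_ (sum_fract_pair _ _ _)
  set m := 2 * (α * RR q β) - ((nb q β α : ℝ) - 1) * dl p q β with hm
  have hm1 : 2 * (α * rr p q) ≤ m := by
    have : ((nb q β α : ℝ) - 1) * dl p q β = nb q β α * dl p q β - dl p q β := by ring
    rw [hm, this]
    linarith
  have hfr : Int.fract (2 * (α * rr p q)) ≤ Int.fract m := by
    have e : Int.fract m = Int.fract (2 * (α * rr p q)) + (m - 2 * (α * rr p q)) := by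
      rw [Int.fract_eq_iff]
      have h7 := Int.fract_nonneg (2 * (α * rr p q))
      refine ⟨by linarith, by linarith, ⌊2 * (α * rr p q)⌋, ?_⟩
      have h8 := Int.self_sub_fract (2 * (α * rr p q))
      linarith
    rw [e]
    linarith
  have hI0 : (0 : ℝ) ≤ nb q β α := Nat.cast_nonneg _
  have h7 : (nb q β α : ℝ) / 2 * (2 * (t * rr p q - ((p : ℝ) + q - 1) / 2 + η)) ≤
      nb q β α / 2 * Int.fract m :=
    mul_le_mul_of_nonneg_left (h5.trans hfr) (by linarith)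
  linarith

end Pool.Agent.E8helper63.LT
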