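import Mathlib
import Pool.Agent.E8helper63.LT.Gap

/-!
# Lattice points in right triangles: reduction to slopes close to finitely many rationals
-/

set_option autoImplicit false

open Finset Filter

namespace Pool.Agent.E8helper63.LT

/-- slopes that are very large -/
theorem far_big : ∀ᶠ α : ℝ in atTop, ∀ β : ℝ, 5 ≤ β → ∀ t : ℝ, t ≤ 21 / 20 →
    (cnt β α : ℝ) ≤ α ^ 2 / 2 - t * α - 1 := by
  filter_upwards [eventually_ge_atTop (40 : ℝ)] with α hα β hβ t ht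
  have hβ0 : 0 < β := by linarith
  have hs : 0 < √β := Real.sqrt_pos.2 hβ0
  have hsq : √β * √β = β := Real.mul_self_sqrt hβ0.le
  set s := √β with hsd
  have hs2 : (11 : ℝ) / 5 ≤ s := by
    by_contra hc
    push Not at hc
    nlinarith
  have htα : t * α ≤ 21 / 20 * α := mul_le_mul_of_nonneg_right ht (by linarith)
  rcases le_or_gt s α with h | h
  · have h1 := cnt_le_sq (α := α) hβ0 (by linarith)
    rw [← hsd] at h1
    have h2 : (α - s / 2) ^ 2 / 2 = α ^ 2 / 2 - α * s / 2 + s ^ 2 / 8 := by ring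
    have h3 : 0 ≤ (s - 11 / 5) * (α / 2 - s / 8 - 11 / 40) :=
      mul_nonneg (by linarith) (by linarith)
    nlinarith
  · have h1 : cnt β α = 0 := by
      unfold cnt
      have : {x : ℕ × ℕ | 0 < x.1 ∧ 0 < x.2 ∧ (x.2 : ℝ) ≤ α * √β - x.1 * β} = ∅ := by
        ext x
        simp only [Set.mem_ofPred_eq, Set.mem_empty_iff_false, iff_false]
        rintro ⟨h2, h3, h4⟩
        have h2' : (1 : ℝ) ≤ x.1 := by exact_mod_cast h2
        have h3' : (0 : ℝ) < x.2 := by exact_mod_cast h3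
        rw [← hsd] at h4
        have h5 : α * s ≤ s * s := mul_le_mul_of_nonneg_right h.le hs.le
        have h6 : 1 * β ≤ x.1 * β := mul_le_mul_of_nonneg_right h2' hβ0.le
        linarith
      rw [this, Set.ncard_empty]
    rw [h1]
    push_cast
    nlinarith

/-- general lower bound for the linear term -/
theorem lin_term {p q : ℕ} (hp : 0 < p) (hq : 0 < q) {α β : ℝ} (hβ : 0 < β) (hα : 0 ≤ α)
    (h : (p : ℝ) ≤ q * β) :
    α - α / RR q β * (1 / 2 + dl p q β) ≤ α * (p + q - 1 - dl p q β) / (2 * RR q β) := by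
  have hR0 := RR_pos hq hβ
  have hsub := RR_sub_le hp hq hβ h
  have h2 := two_rr_le p q
  set R := RR q β with hRd
  set δ := dl p q β with hδ
  have e1 : α * (p + q - 1 - δ) / (2 * R) = α / R * ((p + q - 1 - δ) / 2) := by field_simp
  have e2 : α - α / R * (1 / 2 + δ) = α / R * (R - 1 / 2 - δ) := by field_simp; ring
  rw [e1, e2]
  apply mul_le_mul_of_nonneg_left _ (by positivity)
  linarith

/-- a long window -/
theorem far_long {p q : ℕ} (hp : 0 < p) (hq : 0 < q) (hpq : Nat.Coprime p q) (t : ℝ)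
    (ht : t < 1) :
    ∀ᶠ α : ℝ in atTop, ∀ β : ℝ, 0 < β → (p : ℝ) ≤ q * β → dl p q β ≤ 1 →
      dl p q β ≤ (1 - t) / 8 → 1 / (2 * (1 - t)) ≤ nb q β α * dl p q β →
      (cnt β α : ℝ) ≤ α ^ 2 / 2 - t * α - 1 := by
  have ht' : 0 < 1 - t := by linarith
  set B : ℝ := ((p : ℝ) * q + p + q - 1) / 2 + (rr p q + 1) ^ 2 + 3 with hB
  filter_upwards [eventually_ge_atTop (2 * (rr p q + 1)),
    eventually_ge_atTop (2 * B / (1 - t))] with α h1 h2 β hβ h hd1 hd2 hC
  obtain ⟨hR0, hRr, hαz, hz2, hI1, hI2, hzz⟩ := zfacts hp hq hβ h hd1 h1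
  have hd0 := dl_nonneg hβ h
  have hr1 := one_le_rr hp hq
  have hrR := rr_le_RR hq hβ h
  have hα0 : 0 ≤ α := by linarith
  have hU := cnt_upper' hβ hα0 hp hq hpq h
  have hL := lin_term hp hq hβ hα0 h
  set R := RR q β with hRd
  set r := rr p q with hr
  set δ := dl p q β with hδ
  set z := α / R with hz
  set I : ℝ := (nb q β α : ℝ) with hI
  have hI0 : 0 ≤ I := Nat.cast_nonneg _
  have hC0 : 0 < 1 / (2 * (1 - t)) := by positivity
  have hδpos : 0 < δ := by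
    rcases hd0.lt_or_eq with h5 | h5
    · exact h5
    · rw [← h5, mul_zero] at hC
      linarith
  have hS : I / 2 - 1 / (8 * δ) - (I * δ + 1) ≤ ss p q β α :=
    sum_fract_quarter (α * RR q β) hδpos hd1 (nb q β α)
  have hzα : z ≤ α := by
    rw [hz]
    exact div_le_self hα0 (by linarith)
  have h3 : 1 / (8 * δ) ≤ I * (1 - t) / 4 := by
    rw [div_le_iff₀ (by positivity)]
    rw [div_le_iff₀ (by positivity)] at hC
    nlinarith
  have h4 : I * (1 - t) / 4 ≤ α * (1 - t) / 4 := by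
    have := mul_le_mul_of_nonneg_right (hI1.trans hzα) ht'.le
    linarith
  have h5 : z * δ ≤ α * ((1 - t) / 8) :=
    mul_le_mul hzα hd2 hd0 hα0
  have h6 : I * δ ≤ z * δ := mul_le_mul_of_nonneg_right hI1 hd0
  have hR2 : R ^ 2 ≤ (r + 1) ^ 2 := pow_le_pow_left₀ hR0.le hRr 2
  rw [div_le_iff₀ ht'] at h2
  have e1 : z * (1 / 2 + δ) = z / 2 + z * δ := by ring
  rw [e1] at hL
  linarith

/-- a close rational of large height -/
theorem far_height {p q : ℕ} (hp : 0 < p) (hq : 0 < q) (hpq : Nat.Coprime p q) (t : ℝ)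
    (ht : t < 1) (hr : 81 ≤ rr p q * (1 - t)) :
    ∀ᶠ α : ℝ in atTop, ∀ β : ℝ, 0 < β → (p : ℝ) ≤ q * β → dl p q β ≤ 40 →
      (cnt β α : ℝ) ≤ α ^ 2 / 2 - t * α - 1 := by
  have ht' : 0 < 1 - t := by linarith
  set B : ℝ := ((p : ℝ) * q + p + q - 1) / 2 + (rr p q + 20) ^ 2 + 3 with hB
  filter_upwards [eventually_ge_atTop (0 : ℝ),
    eventually_ge_atTop (2 * B / (1 - t))] with α hα0 h2 β hβ h hd1
  have hd0 := dl_nonneg hβ h
  have hr1 := one_le_rr hp hq
  have hrR := rr_le_RR hq hβ h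
  have hU := cnt_upper' hβ hα0 hp hq hpq h
  have hL := lin_term hp hq hβ hα0 h
  have hsub := RR_sub_le hp hq hβ h
  have hR0 := RR_pos hq hβ
  have hS : 0 ≤ ss p q β α := sum_fract_nonneg _ _ _
  set R := RR q β with hRd
  set r := rr p q with hr'
  set δ := dl p q β with hδ
  have h3 : α / R * (1 / 2 + δ) ≤ α * (1 - t) / 2 := by
    have h4 : α / R ≤ α * (1 - t) / 81 := by
      rw [div_le_iff₀ hR0]
      have h5 : r * (1 - t) ≤ R * (1 - t) := mul_le_mul_of_nonneg_right hrR ht'.le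
      have h6 : α * 81 ≤ α * (R * (1 - t)) := mul_le_mul_of_nonneg_left (by linarith) hα0
      linarith
    have h5 : α / R * (1 / 2 + δ) ≤ α * (1 - t) / 81 * (81 / 2) :=
      mul_le_mul h4 (by linarith) (by linarith) (by positivity)
    linarith
  have hR2 : R ^ 2 ≤ (r + 20) ^ 2 := pow_le_pow_left₀ hR0.le (by linarith) 2
  rw [div_le_iff₀ ht'] at h2
  linarith

/-- rational approximation of a slope or of its inverse from below -/
theorem exists_approx {β : ℝ} (hβ1 : 1 / 5 < β) (hβ5 : β < 5) {Q : ℕ} (hQ : 5 ≤ Q) :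
    ∃ p q : ℕ, 0 < p ∧ 0 < q ∧ p ≤ 5 * Q + 1 ∧ q ≤ 5 * Q + 1 ∧ Nat.Coprime p q ∧
      ∃ β₁ : ℝ, (β₁ = β ∨ β₁ = β⁻¹) ∧ (p : ℝ) ≤ q * β₁ ∧
        dl p q β₁ ≤ 5 * q / (Q + 1) := by
  have hβ0 : 0 < β := by linarith
  obtain ⟨x, hx1, hx2⟩ := Real.exists_rat_abs_sub_le_and_den_le β (n := Q) (by omega)
  have hb0 : (0 : ℝ) < x.den := by exact_mod_cast x.den_pos
  have hb1 : (1 : ℝ) ≤ x.den := by exact_mod_cast x.den_pos
  have hbQ : (x.den : ℝ) ≤ Q := by exact_mod_cast hx2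
  have hQ' : (5 : ℝ) ≤ Q := by exact_mod_cast hQ
  have hQ0 : (0 : ℝ) < (Q : ℝ) + 1 := by linarith
  have hxe : (x : ℝ) = (x.num : ℝ) / x.den := by
    rw [Rat.cast_def]
  have h1 : |x.den * β - x.num| ≤ 1 / (Q + 1) := by
    have e : x.den * β - x.num = x.den * (β - x) := by
      rw [hxe]; field_simp
    rw [e, abs_mul, abs_of_pos hb0]
    calc (x.den : ℝ) * |β - x| ≤ x.den * (1 / ((Q + 1) * x.den)) :=
          mul_le_mul_of_nonneg_left hx1 hb0.le
      _ = 1 / (Q + 1) := by field_simp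
  rw [abs_le] at h1
  have h1' : (1 : ℝ) / (Q + 1) ≤ 1 / 6 := by
    rw [div_le_div_iff₀ hQ0 (by norm_num)]
    linarith
  have hnumpos : 0 < x.num := by
    by_contra hc
    push Not at hc
    have h2 : (x.num : ℝ) ≤ 0 := by exact_mod_cast hc
    nlinarith [h1.2]
  obtain ⟨a, ha⟩ := Int.eq_ofNat_of_zero_le hnumpos.le
  have ha0 : 0 < a := by omega
  have haR : (x.num : ℝ) = a := by rw [ha]; norm_cast
  rw [haR] at h1
  have hcop : Nat.Coprime a x.den := by
    have := x.reduced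
    rw [ha] at this
    simpa using this
  have haQ : a ≤ 5 * Q + 1 := by
    have h3 : (a : ℝ) ≤ 5 * Q + 1 := by nlinarith [h1.1]
    exact_mod_cast h3
  have ha0' : (0 : ℝ) < a := by exact_mod_cast ha0
  rcases le_or_gt (a : ℝ) (x.den * β) with h | h
  · refine ⟨a, x.den, ha0, x.den_pos, haQ, by omega, hcop, β, Or.inl rfl, h, ?_⟩
    unfold dl
    rw [RR_sq hβ0]
    have e : (x.den : ℝ) ^ 2 * β - a * x.den = x.den * (x.den * β - a) := by ring
    rw [e]
    calc (x.den : ℝ) * (x.den * β - a) ≤ x.den * (1 / (Q + 1)) :=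
          mul_le_mul_of_nonneg_left h1.2 hb0.le
      _ = x.den / (Q + 1) := by ring
      _ ≤ 5 * x.den / (Q + 1) := by
          apply div_le_div_of_nonneg_right _ hQ0.le
          linarith
  · refine ⟨x.den, a, x.den_pos, ha0, by omega, haQ, hcop.symm, β⁻¹, Or.inr rfl, ?_, ?_⟩
    · rw [← div_eq_mul_inv, le_div_iff₀ hβ0]
      exact h.le
    · unfold dl
      rw [RR_sq (inv_pos.2 hβ0)]
      have e : (a : ℝ) ^ 2 * β⁻¹ - x.den * a = (a * β⁻¹) * (a - x.den * β) := by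
        field_simp
      rw [e]
      have h5 : β⁻¹ ≤ 5 := by
        rw [inv_le_comm₀ hβ0 (by norm_num)]
        linarith
      calc ((a : ℝ) * β⁻¹) * (a - x.den * β) ≤ (a * 5) * (1 / (Q + 1)) := by
            apply mul_le_mul _ (by linarith [h1.1]) (by linarith) (by positivity)
            exact mul_le_mul_of_nonneg_left h5 ha0'.le
        _ = 5 * a / (Q + 1) := by ring

/-- every slope is either bad or close to one of finitely many rational numbers -/
theorem far (t : ℝ) (ht0 : 0 ≤ t) (ht : t < 1) :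
    ∃ B : ℕ, ∃ C : ℝ, ∀ᶠ α : ℝ in atTop, ∀ β : ℝ, 0 < β →
      (cnt β α : ℝ) ≤ α ^ 2 / 2 - t * α - 1 ∨
      ∃ p q : ℕ, 0 < p ∧ 0 < q ∧ p ≤ B ∧ q ≤ B ∧ Nat.Coprime p q ∧
        ∃ β₁ : ℝ, (β₁ = β ∨ β₁ = β⁻¹) ∧ (p : ℝ) ≤ q * β₁ ∧ dl p q β₁ ≤ 1 ∧
          nb q β₁ α * dl p q β₁ ≤ C := by
  have ht' : 0 < 1 - t := by linarith
  obtain ⟨Q, hQ⟩ := exists_nat_gt (5 + (5 * (81 / (1 - t)) ^ 2) / ((1 - t) / 8))
  have hδ0 : 0 < (1 - t) / 8 := by positivity
  have hQ5 : (5 : ℝ) < Q := by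
    have : 0 ≤ (5 * (81 / (1 - t)) ^ 2) / ((1 - t) / 8) := by positivity
    linarith
  have hQ5' : 5 ≤ Q := by
    have : 5 < Q := by exact_mod_cast hQ5
    omega
  refine ⟨5 * Q + 1, 1 / (2 * (1 - t)), ?_⟩
  have hlong : ∀ᶠ α : ℝ in atTop, ∀ p ∈ range (5 * Q + 2), ∀ q ∈ range (5 * Q + 2),
      0 < p → 0 < q → Nat.Coprime p q →
      ∀ β : ℝ, 0 < β → (p : ℝ) ≤ q * β → dl p q β ≤ 1 →
      dl p q β ≤ (1 - t) / 8 → 1 / (2 * (1 - t)) ≤ nb q β α * dl p q β →
      (cnt β α : ℝ) ≤ α ^ 2 / 2 - t * α - 1 := by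
    rw [Filter.eventually_all_finset]
    intro p _
    rw [Filter.eventually_all_finset]
    intro q _
    by_cases h1 : 0 < p ∧ 0 < q ∧ Nat.Coprime p q
    · filter_upwards [far_long h1.1 h1.2.1 h1.2.2 t ht] with α hα _ _ _
      exact hα
    · exact Eventually.of_forall fun α h2 h3 h4 => absurd ⟨h2, h3, h4⟩ h1
  have hheight : ∀ᶠ α : ℝ in atTop, ∀ p ∈ range (5 * Q + 2), ∀ q ∈ range (5 * Q + 2),
      0 < p → 0 < q → Nat.Coprime p q → 81 ≤ rr p q * (1 - t) →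
      ∀ β : ℝ, 0 < β → (p : ℝ) ≤ q * β → dl p q β ≤ 40 →
      (cnt β α : ℝ) ≤ α ^ 2 / 2 - t * α - 1 := by
    rw [Filter.eventually_all_finset]
    intro p _
    rw [Filter.eventually_all_finset]
    intro q _
    by_cases h1 : 0 < p ∧ 0 < q ∧ Nat.Coprime p q ∧ 81 ≤ rr p q * (1 - t)
    · filter_upwards [far_height h1.1 h1.2.1 h1.2.2.1 t ht h1.2.2.2] with α hα _ _ _ _
      exact hα
    · exact Eventually.of_forall fun α h2 h3 h4 h5 => absurd ⟨h2, h3, h4, h5⟩ h1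
  filter_upwards [hlong, hheight, far_big] with α h1 h2 h3 β hβ
  rcases le_or_gt 5 β with h5 | h5
  · exact Or.inl (h3 β h5 t (by linarith))
  rcases le_or_gt β (1 / 5) with h6 | h6
  · left
    rw [← cnt_inv hβ]
    apply h3 β⁻¹ _ t (by linarith)
    rw [le_inv_comm₀ (by norm_num) hβ]
    linarith
  obtain ⟨p, q, hp, hq, hpQ, hqQ, hpq, β₁, hβ₁, hle, hdl⟩ := exists_approx h6 h5 hQ5'
  have hβ₁0 : 0 < β₁ := by
    rcases hβ₁ with h | h
    · rw [h]; exact hβ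
    · rw [h]; exact inv_pos.2 hβ
  have hcnt : cnt β₁ α = cnt β α := by
    rcases hβ₁ with h | h
    · rw [h]
    · rw [h, cnt_inv hβ]
  have hq' : (1 : ℝ) ≤ q := by exact_mod_cast hq
  have hp' : (1 : ℝ) ≤ p := by exact_mod_cast hp
  have hQ1 : (0 : ℝ) < (Q : ℝ) + 1 := by linarith
  rcases le_or_gt (dl p q β₁) ((1 - t) / 8) with h7 | h7
  · have h8 : dl p q β₁ ≤ 1 := by linarith
    rcases le_or_gt (1 / (2 * (1 - t))) (nb q β₁ α * dl p q β₁) with h9 | h9
    · left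
      rw [← hcnt]
      exact h1 p (mem_range.2 (by omega)) q (mem_range.2 (by omega)) hp hq hpq β₁ hβ₁0 hle h8 h7 h9
    · right
      exact ⟨p, q, hp, hq, hpQ, hqQ, hpq, β₁, hβ₁, hle, h8, h9.le⟩
  · left
    rw [← hcnt]
    have hqQ' : (q : ℝ) ≤ 5 * Q + 1 := by exact_mod_cast hqQ
    have h8 : dl p q β₁ ≤ 40 := by
      refine hdl.trans ?_
      rw [div_le_iff₀ hQ1]
      nlinarith
    have h9 : 81 ≤ rr p q * (1 - t) := by
      have h10 : (1 - t) / 8 * (Q + 1) < 5 * q := by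
        have := h7.trans_le hdl
        rwa [lt_div_iff₀ hQ1] at this
      have h11 : (81 / (1 - t)) ^ 2 ≤ q := by
        have h12 : (5 * (81 / (1 - t)) ^ 2) / ((1 - t) / 8) < Q + 1 := by linarith
        rw [div_lt_iff₀ hδ0] at h12
        linarith
      have h12 : (81 / (1 - t)) ^ 2 ≤ rr p q ^ 2 := by
        rw [rr_sq]
        nlinarith
      have h13 : 81 / (1 - t) ≤ rr p q :=
        (sq_le_sq₀ (by positivity) (Real.sqrt_nonneg _)).1 h12
      rwa [div_le_iff₀ ht'] at h13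
    exact h2 p (mem_range.2 (by omega)) q (mem_range.2 (by omega)) hp hq hpq h9 β₁ hβ₁0 hle h8

end Pool.Agent.E8helper63.LT
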