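import Mathlib
import Pool.Agent.E8helper63.LT.Block
import Pool.Agent.E8helper63.LT.Far

/-!
# Lattice points in right triangles: slopes near a slope that is not a rational number `p / q`
with `p + q - 1 < 2 √(p q)`
-/

set_option autoImplicit false

open Finset Filter Topology

namespace Pool.Agent.E8helper63.LT

theorem rr_comm (p q : ℕ) : rr p q = rr q p := by
  unfold rr
  rw [mul_comm]

/-- a lower bound for the count at a rational slope -/
theorem cnt_lower {p q : ℕ} (hp : 0 < p) (hq : 0 < q) (hpq : Nat.Coprime p q) {α : ℝ}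
    (hα : 0 ≤ α) :
    α ^ 2 / 2 - α * (p + q + 1) / (2 * rr p q) - p * q / 2 ≤ cnt ((p : ℝ) / q) α := by
  have hr1 := one_le_rr hp hq
  have hrsq := rr_sq p q
  rw [cnt_rat hp hq hα]
  have hrr : α * √((p : ℝ) * q) = α * rr p q := rfl
  rw [hrr]
  set r := rr p q with hr
  set n := ⌊α * r⌋₊ with hn
  have hn1 : (n : ℝ) ≤ α * r := Nat.floor_le (by positivity)
  have hn2 : α * r < n + 1 := Nat.lt_floor_add_one _
  have hpq0 : 0 < p * q := Nat.mul_pos hp hq
  set n0 := n % (p * q) with hn0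
  set j := n / (p * q) with hj
  have hnj : n = n0 + p * q * j := (Nat.mod_add_div n (p * q)).symm
  have hn0' : n0 < p * q := Nat.mod_lt _ hpq0
  have hmul := cn_mul hp hq hpq n0 j
  rw [← hnj] at hmul
  rw [hmul]
  have hc0 : (0 : ℝ) ≤ cn p q n0 := Nat.cast_nonneg _
  have hj0 : (0 : ℝ) ≤ j := Nat.cast_nonneg _
  have hn00 : (0 : ℝ) ≤ n0 := Nat.cast_nonneg _
  have hn0R : (n0 : ℝ) ≤ p * q := by exact_mod_cast hn0'.le
  have hnjR : (n : ℝ) = n0 + p * q * j := by exact_mod_cast hnj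
  have hpq1 : (1 : ℝ) ≤ (p : ℝ) * q := by exact_mod_cast hpq0
  have hp1 : (1 : ℝ) ≤ p := by exact_mod_cast hp
  have hq1 : (1 : ℝ) ≤ q := by exact_mod_cast hq
  set m : ℝ := (p : ℝ) * q with hm
  have hm0 : 0 < m := by linarith
  have h1 : (n : ℝ) ^ 2 / (2 * m) = n0 ^ 2 / (2 * m) + n0 * j + m * j ^ 2 / 2 := by
    rw [hnjR]
    field_simp
    ring
  have h2 : (n0 : ℝ) ^ 2 / (2 * m) ≤ m / 2 := by
    rw [div_le_div_iff₀ (by linarith) (by norm_num)]
    nlinarith
  have h3 : (j : ℝ) * (((p : ℝ) + q - 1) / 2) ≤ α * (p + q - 1) / (2 * r) := by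
    have h4 : (j : ℝ) ≤ α / r := by
      rw [le_div_iff₀ (by linarith)]
      have h5 : (j : ℝ) * m ≤ α * r := by nlinarith
      rw [← hrsq] at h5
      have h6 : (j : ℝ) * r * r ≤ α * r := by nlinarith
      exact le_of_mul_le_mul_right h6 (by linarith)
    calc (j : ℝ) * (((p : ℝ) + q - 1) / 2) ≤ α / r * (((p : ℝ) + q - 1) / 2) :=
          mul_le_mul_of_nonneg_right h4 (by linarith)
      _ = α * (p + q - 1) / (2 * r) := by field_simp
  have h4 : α ^ 2 / 2 - α / r ≤ (n : ℝ) ^ 2 / (2 * m) := by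
    have h5 : (α * r) ^ 2 - 2 * (α * r) ≤ (n : ℝ) ^ 2 := by
      have hn' : (0 : ℝ) ≤ n := Nat.cast_nonneg _
      have hαr : 0 ≤ α * r := by positivity
      rcases le_or_gt 1 (α * r) with h | h
      · nlinarith
      · nlinarith
    have h6 : α ^ 2 / 2 - α / r = ((α * r) ^ 2 - 2 * (α * r)) / (2 * m) := by
      rw [← hrsq]
      field_simp
    rw [h6]
    exact div_le_div_of_nonneg_right h5 (by linarith)
  have h5 : α * (p + q + 1) / (2 * r) = α / r + α * (p + q - 1) / (2 * r) := by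
    field_simp
    ring
  rw [h5]
  have e1 : (j : ℝ) * ((n0 : ℝ) - ((p : ℝ) + q - 1) / 2) = n0 * j - j * (((p : ℝ) + q - 1) / 2) := by
    ring
  rw [e1]
  linarith

/-- the maximal count is at least `α ^ 2 / 2 - t α` for every `t > 1` -/
theorem lower_max {t : ℝ} (ht : 1 < t) :
    ∀ᶠ α : ℝ in atTop, ∃ β : ℝ, 0 < β ∧ α ^ 2 / 2 - t * α < cnt β α := by
  obtain ⟨P, hP⟩ := exists_nat_gt (1 / (t - 1))
  have ht' : 0 < t - 1 := by linarith
  have hP0 : (0 : ℝ) < P := lt_trans (by positivity) hP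
  have hP0' : 0 < P := by exact_mod_cast hP0
  have hcop : Nat.Coprime P (P + 1) := by simp
  have hP1 : 1 < P * (t - 1) := by rwa [div_lt_iff₀ ht'] at hP
  set κ : ℝ := t - (P + 1) / P with hκ
  have hκ0 : 0 < κ := by
    have h1 : ((P : ℝ) + 1) / P < t := by
      rw [div_lt_iff₀ hP0]
      nlinarith
    linarith
  filter_upwards [eventually_gt_atTop (0 : ℝ), eventually_gt_atTop ((P * (P + 1) / 2 : ℝ) / κ)]
    with α hα h1
  refine ⟨(P : ℝ) / ((P + 1 : ℕ) : ℝ), by positivity, ?_⟩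
  refine lt_of_lt_of_le ?_ (cnt_lower hP0' (Nat.succ_pos P) hcop hα.le)
  have hrP : (P : ℝ) ≤ rr P (P + 1) := by
    unfold rr
    apply Real.le_sqrt_of_sq_le
    push_cast
    nlinarith
  have h2 : α * (P + ((P + 1 : ℕ) : ℝ) + 1) / (2 * rr P (P + 1)) ≤ α * ((P + 1) / P) := by
    have e : α * (P + ((P + 1 : ℕ) : ℝ) + 1) / (2 * rr P (P + 1)) =
        α * (P + 1) / rr P (P + 1) := by
      have : rr P (P + 1) ≠ 0 := by linarith
      push_cast
      field_simp
      ring
    rw [e, ← mul_div_assoc]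
    exact div_le_div_of_nonneg_left (by positivity) hP0 hrP
  rw [div_lt_iff₀ hκ0] at h1
  have h3 : α * κ = t * α - α * ((P + 1) / P) := by rw [hκ]; ring
  rw [h3] at h1
  push_cast at h2 ⊢
  linarith

/-- no critical phenomenon: the linear coefficient is larger than one -/
theorem noncrit {p q : ℕ} (hp : 0 < p) (hq : 0 < q) (hpq : Nat.Coprime p q) {D : ℝ}
    (hD : 0 ≤ D) (h : 2 * rr p q + 2 * D < (p : ℝ) + q - 1) :
    ∃ t : ℝ, 1 < t ∧ ∀ᶠ α : ℝ in atTop, ∀ β : ℝ, 0 < β → (p : ℝ) ≤ q * β → dl p q β ≤ D →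
      (cnt β α : ℝ) ≤ α ^ 2 / 2 - t * α := by
  have hr1 := one_le_rr hp hq
  set g : ℝ := (p : ℝ) + q - 1 - 2 * rr p q - 2 * D with hg
  have hg0 : 0 < g := by linarith
  set κ : ℝ := g / (2 * (rr p q + D)) with hκ
  have hκ0 : 0 < κ := by positivity
  set B : ℝ := ((p : ℝ) * q + p + q - 1) / 2 + (rr p q + D) ^ 2 with hB
  refine ⟨1 + κ / 2, by linarith, ?_⟩
  filter_upwards [eventually_ge_atTop (0 : ℝ), eventually_ge_atTop (B / (κ / 2))] with α hα0 h2 β hβ hle hd1
  have hd0 := dl_nonneg hβ hle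
  have hrR := rr_le_RR hq hβ hle
  have hU := cnt_upper' hβ hα0 hp hq hpq hle
  have hsub := RR_sub_le hp hq hβ hle
  have hR0 := RR_pos hq hβ
  have hS : 0 ≤ ss p q β α := sum_fract_nonneg _ _ _
  set R := RR q β with hRd
  set r := rr p q with hr'
  set δ := dl p q β with hδ
  have hRD : R ≤ r + D := by linarith
  have h3 : α * (1 + κ) ≤ α * (p + q - 1 - δ) / (2 * R) := by
    rw [le_div_iff₀ (by linarith), mul_assoc]
    apply mul_le_mul_of_nonneg_left _ hα0
    have h4 : κ * (2 * R) ≤ g := by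
      have h5 : κ * (2 * R) ≤ κ * (2 * (r + D)) := mul_le_mul_of_nonneg_left (by linarith) hκ0.le
      have h6 : κ * (2 * (r + D)) = g := by rw [hκ]; field_simp
      linarith
    nlinarith
  have hR2 : R ^ 2 ≤ (r + D) ^ 2 := pow_le_pow_left₀ hR0.le hRD 2
  rw [div_le_iff₀ (by positivity)] at h2
  linarith

/-- the sum of the fractional parts is large when `α R` has passed the next integer -/
theorem sum_big {p q : ℕ} (hp : 0 < p) (hq : 0 < q) {α β : ℝ} (hβ : 0 < β)
    (hα : 2 * (rr p q + 1) ≤ α) (h : (p : ℝ) ≤ q * β) (hd : dl p q β ≤ 1 / 16)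
    (hn : (⌊α * rr p q⌋₊ : ℝ) + 1 ≤ α * RR q β) :
    5 / 16 * (nb q β α : ℝ) - 3 ≤ ss p q β α := by
  obtain ⟨hR0, hRr, hαz, hz2, hI1, hI2, hzz⟩ := zfacts hp hq hβ h (by linarith) hα
  have hd0 := dl_nonneg hβ h
  have hr1 := one_le_rr hp hq
  have hrR := rr_le_RR hq hβ h
  have hsub := RR_sub_le hp hq hβ h
  have hn2 : α * rr p q < ⌊α * rr p q⌋₊ + 1 := Nat.lt_floor_add_one _
  have hdeq : dl p q β = (RR q β - rr p q) * (RR q β + rr p q) := by
    unfold dl
    rw [← rr_sq]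
    ring
  have hss : ss p q β α = ∑ i ∈ range (nb q β α), Int.fract (α * RR q β - i * dl p q β) := rfl
  rw [hss]
  set R := RR q β with hRd
  set r := rr p q with hr
  set δ := dl p q β with hδ
  set z := α / R with hz
  set I : ℝ := (nb q β α : ℝ) with hI
  set n0 := ⌊α * r⌋₊ with hn0
  have hI0 : 0 ≤ I := Nat.cast_nonneg _
  have hδpos : 0 < δ := by
    rcases hd0.lt_or_eq with h5 | h5
    · exact h5
    · exfalso
      have h6 : R = r := by
        rcases mul_eq_zero.1 (hdeq.symm.trans h5.symm) with h7 | h7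
        · linarith
        · linarith
      rw [h6] at hn
      linarith
  rcases le_or_gt 1 (I * δ) with hc | hc
  · have hS := sum_fract_quarter (α * R) hδpos (by linarith) (nb q β α)
    rw [← hI] at hS
    have h1 : 1 / (8 * δ) ≤ I / 8 := by
      rw [div_le_div_iff₀ (by linarith) (by norm_num)]
      linarith
    have h2 : I * δ ≤ I * (1 / 16) := mul_le_mul_of_nonneg_left hd hI0
    linarith
  · set f : ℝ := α * R - (n0 + 1) with hf
    have hf0 : 0 ≤ f := by linarith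
    have key : 2 * (α * R) - z * δ - 2 * (α * r) = z * (R - r) ^ 2 := by
      rw [hdeq, hαz]
      ring
    have hzδ : z * δ ≤ 2 := by
      have h4 : z * δ ≤ (I + 1) * δ := mul_le_mul_of_nonneg_right hI2.le hd0
      have h5 : (I + 1) * δ = I * δ + δ := by ring
      linarith
    have hsq : z * (R - r) ^ 2 ≤ δ / 2 := by
      have h4 : (R - r) ^ 2 ≤ (δ / 2) ^ 2 := pow_le_pow_left₀ (by linarith) hsub 2
      have h5 : z * (R - r) ^ 2 ≤ z * (δ / 2) ^ 2 := mul_le_mul_of_nonneg_left h4 (by linarith)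
      have h6 : z * (δ / 2) ^ 2 = (z * δ) * δ / 4 := by ring
      have h7 : (z * δ) * δ ≤ 2 * δ := mul_le_mul_of_nonneg_right hzδ hd0
      linarith
    have h2f : 2 * f - I * δ ≤ 3 / 2 * δ := by
      have h4 : (z - I) * δ ≤ 1 * δ := mul_le_mul_of_nonneg_right (by linarith) hd0
      have h5 : (z - I) * δ = z * δ - I * δ := by ring
      rw [hf]
      linarith
    rcases le_or_gt (I * δ) f with hfc | hfc
    · -- very few terms
      have h4 : I * δ ≤ 3 / 2 * δ := by linarith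
      have h5 : I ≤ 3 / 2 := le_of_mul_le_mul_right h4 hδpos
      have h6 := sum_fract_nonneg (α * R) δ (nb q β α)
      linarith
    · have hfrx : Int.fract (α * R) = f := by
        rw [Int.fract_eq_iff]
        refine ⟨hf0, by linarith, n0 + 1, ?_⟩
        rw [hf]
        push_cast
        ring
      have hfry : Int.fract (α * R - I * δ) = 1 + f - I * δ := by
        rw [Int.fract_eq_iff]
        refine ⟨by linarith, by linarith, n0, ?_⟩
        rw [hf]
        push_cast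
        ring
      have hS := sum_fract_ge (α * R) hδpos (by linarith) (nb q β α)
      rw [← hI, hfrx, hfry] at hS
      have h4 : f * (1 - f) - (1 + f - I * δ) * (1 - (1 + f - I * δ)) = (2 * f - I * δ) * (1 - I * δ) := by
        ring
      rw [h4] at hS
      have h5 : (2 * f - I * δ) * (1 - I * δ) / (2 * δ) ≤ 3 / 4 := by
        rw [div_le_iff₀ (by linarith)]
        have h6 : (2 * f - I * δ) * (1 - I * δ) ≤ (3 / 2 * δ) * (1 - I * δ) :=
          mul_le_mul_of_nonneg_right h2f (by linarith)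
        have h7 : (3 / 2 * δ) * (1 - I * δ) ≤ (3 / 2 * δ) * 1 :=
          mul_le_mul_of_nonneg_left (by nlinarith) (by linarith)
        linarith
      linarith

/-- the critical case `p + q - 1 = 2 √(p q)` -/
theorem crit {p q : ℕ} (hp : 0 < p) (hq : 0 < q) (hpq : Nat.Coprime p q)
    (h : (p : ℝ) + q - 1 = 2 * rr p q) :
    ∃ t : ℝ, 1 < t ∧ ∃ D : ℝ, 0 < D ∧ ∀ᶠ α : ℝ in atTop, ∀ β : ℝ, 0 < β → (p : ℝ) ≤ q * β →
      dl p q β ≤ D →
      cnt β α ≤ cnt ((p : ℝ) / q) α ∨ (cnt β α : ℝ) ≤ α ^ 2 / 2 - t * α := by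
  have hr1 := one_le_rr hp hq
  set κ : ℝ := 1 / (16 * (rr p q + 1)) with hκ
  have hκ0 : 0 < κ := by positivity
  have hκ1 : κ ≤ 1 / 16 := by
    rw [hκ]
    apply div_le_div_of_nonneg_left (by norm_num) (by norm_num)
    linarith
  set B : ℝ := ((p : ℝ) * q + p + q - 1) / 2 + (rr p q + 1) ^ 2 + 4 with hB
  refine ⟨1 + 2 * κ, by linarith, κ, hκ0, ?_⟩
  filter_upwards [eventually_ge_atTop (2 * (rr p q + 1)), eventually_ge_atTop (B / (2 * κ))]
    with α hα h2 β hβ hle hd1
  have hα0 : 0 ≤ α := by linarith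
  rcases lt_or_ge (α * RR q β) (⌊α * rr p q⌋₊ + 1) with hlt | hge
  · left
    rw [cnt_rat hp hq hα0]
    exact cnt_le_cn hp hq hle hlt
  right
  have hS := sum_big hp hq hβ hα hle (by linarith) hge
  obtain ⟨hR0, hRr, hαz, hz2, hI1, hI2, hzz⟩ := zfacts hp hq hβ hle (by linarith) hα
  have hd0 := dl_nonneg hβ hle
  have hrR := rr_le_RR hq hβ hle
  have hU := cnt_upper' hβ hα0 hp hq hpq hle
  have hsub := RR_sub_le hp hq hβ hle
  set R := RR q β with hRd
  set r := rr p q with hr'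
  set δ := dl p q β with hδ
  set z := α / R with hz
  set I : ℝ := (nb q β α : ℝ) with hI
  have hzα : z ≤ α := by
    rw [hz]
    exact div_le_self hα0 (by linarith)
  have h3 : α - α * κ ≤ α * (p + q - 1 - δ) / (2 * R) := by
    have e1 : α * (p + q - 1 - δ) / (2 * R) = z * ((p + q - 1 - δ) / 2) := by
      rw [hz]; field_simp
    rw [e1, h]
    have h4 : z * (R - δ) ≤ z * ((2 * r - δ) / 2) :=
      mul_le_mul_of_nonneg_left (by linarith) (by linarith)
    have h5 : z * (R - δ) = α - z * δ := by rw [mul_sub, ← hαz]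
    have h6 : z * δ ≤ α * κ := mul_le_mul hzα hd1 hd0 hα0
    linarith
  have h4 : α * (16 * κ) ≤ z := by
    have : α * (16 * κ) = α / (r + 1) := by rw [hκ]; field_simp
    rw [this]
    exact hzz
  have hR2 : R ^ 2 ≤ (r + 1) ^ 2 := pow_le_pow_left₀ hR0.le hRr 2
  rw [div_le_iff₀ (by positivity)] at h2
  linarith

theorem dl_continuous (p q : ℕ) : Continuous (dl p q) := by
  unfold dl RR
  fun_prop

/-- combination: rational numbers which are not of the special form -/
theorem rat_above {p q : ℕ} (hp : 0 < p) (hq : 0 < q) (hpq : Nat.Coprime p q)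
    (h : 2 * rr p q ≤ (p : ℝ) + q - 1) :
    ∃ t : ℝ, 1 < t ∧ ∃ D : ℝ, 0 < D ∧ ∀ᶠ α : ℝ in atTop, ∀ β : ℝ, 0 < β → (p : ℝ) ≤ q * β →
      dl p q β ≤ D →
      cnt β α ≤ cnt ((p : ℝ) / q) α ∨ (cnt β α : ℝ) ≤ α ^ 2 / 2 - t * α := by
  rcases h.lt_or_eq with h1 | h1
  · obtain ⟨t, ht, h2⟩ := noncrit hp hq hpq (D := ((p : ℝ) + q - 1 - 2 * rr p q) / 4)
      (by linarith) (by linarith)
    refine ⟨t, ht, ((p : ℝ) + q - 1 - 2 * rr p q) / 4, by linarith, ?_⟩
    filter_upwards [h2] with α h3 β hβ hle hd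
    exact Or.inr (h3 β hβ hle hd)
  · exact crit hp hq hpq h1.symm

theorem dl_self {p q : ℕ} (hq : 0 < q) : dl p q ((p : ℝ) / q) = 0 := by
  unfold dl RR
  have hq' : (0 : ℝ) < q := by exact_mod_cast hq
  rw [mul_pow, Real.sq_sqrt (by positivity)]
  field_simp
  ring

/-- good rational approximations of large denominator -/
theorem irr_approx {β : ℝ} (hβ : Irrational β) (hβ0 : 0 < β) (K : ℕ) :
    ∃ p q : ℕ, 0 < p ∧ 0 < q ∧ K < q ∧ Nat.Coprime p q ∧ |q * β - p| < 1 / q := by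
  have hinf := Real.infinite_rat_abs_sub_lt_one_div_den_sq_of_irrational hβ
  obtain ⟨K1, hK1⟩ := exists_nat_gt (1 / β)
  set K2 := max K K1 with hK2
  -- the approximations with small denominator form a finite set
  have hfin : {x : ℚ | |β - x| < 1 / (x.den : ℝ) ^ 2 ∧ x.den ≤ K2}.Finite := by
    let f : ℚ → ℤ × ℕ := fun x => (x.num, x.den)
    have hinj : Function.Injective f := by
      intro a b hab
      simp only [f, Prod.mk_inj] at hab
      rw [← Rat.num_div_den a, ← Rat.num_div_den b, hab.1, hab.2]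
    obtain ⟨N, hN⟩ := exists_nat_gt ((|β| + 1) * K2)
    refine Set.Finite.of_finite_image ?_ hinj.injOn
    refine Set.Finite.subset (Set.Finite.prod (Set.finite_Icc (-(N : ℤ)) N) (Set.finite_Icc 0 K2)) ?_
    rintro _ ⟨x, ⟨hx1, hx2⟩, rfl⟩
    have hb1 : (1 : ℝ) ≤ x.den := by exact_mod_cast x.den_pos
    have hxe : (x : ℝ) = (x.num : ℝ) / x.den := by rw [Rat.cast_def]
    have h1 : |(x : ℝ)| ≤ |β| + 1 := by
      have h2 : 1 / (x.den : ℝ) ^ 2 ≤ 1 := by
        rw [div_le_one (by positivity)]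
        nlinarith
      have h3 : |(x : ℝ)| ≤ |β| + |β - x| := by
        have := abs_sub_abs_le_abs_sub (x : ℝ) β
        rw [abs_sub_comm] at this
        linarith
      linarith
    have h4 : |(x.num : ℝ)| ≤ N := by
      have h5 : (x.num : ℝ) = x * x.den := by rw [hxe]; field_simp
      rw [h5, abs_mul, abs_of_pos (by linarith : (0 : ℝ) < x.den)]
      have h6 : (x.den : ℝ) ≤ K2 := by exact_mod_cast hx2
      have h7 : |(x : ℝ)| * x.den ≤ (|β| + 1) * K2 :=
        mul_le_mul h1 h6 (by linarith) (by positivity)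
      linarith
    have h5 : |x.num| ≤ (N : ℤ) := by
      have : ((|x.num| : ℤ) : ℝ) ≤ ((N : ℤ) : ℝ) := by
        push_cast
        exact h4
      exact_mod_cast this
    rw [abs_le] at h5
    simp only [f, Set.mem_prod, Set.mem_Icc]
    exact ⟨h5, Nat.zero_le _, hx2⟩
  obtain ⟨x, hx1, hx2⟩ := (hinf.sdiff hfin).nonempty
  have hx3 : K2 < x.den := by
    by_contra hc
    push Not at hc
    exact hx2 ⟨hx1, hc⟩
  have hx1' : |β - x| < 1 / (x.den : ℝ) ^ 2 := hx1
  have hb1 : (1 : ℝ) ≤ x.den := by exact_mod_cast x.den_pos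
  have hb0 : (0 : ℝ) < x.den := by linarith
  have hxe : (x : ℝ) = (x.num : ℝ) / x.den := by rw [Rat.cast_def]
  have h1 : |x.den * β - x.num| < 1 / x.den := by
    have e : x.den * β - x.num = x.den * (β - x) := by
      rw [hxe]; field_simp
    rw [e, abs_mul, abs_of_pos hb0]
    calc (x.den : ℝ) * |β - x| < x.den * (1 / (x.den : ℝ) ^ 2) := mul_lt_mul_of_pos_left hx1' hb0
      _ = 1 / x.den := by field_simp
  have hnumpos : 0 < x.num := by
    by_contra hc
    push Not at hc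
    have h2 : (x.num : ℝ) ≤ 0 := by exact_mod_cast hc
    rw [abs_lt] at h1
    have h3 : (K1 : ℝ) < x.den := by
      have : K1 < x.den := lt_of_le_of_lt (le_max_right _ _) hx3
      exact_mod_cast this
    have h4 : 1 < x.den * β := by
      have h5 : 1 / β < x.den := by linarith
      rwa [div_lt_iff₀ hβ0] at h5
    have h5 : (1 : ℝ) / x.den ≤ 1 := by
      rw [div_le_one hb0]
      exact hb1
    linarith [h1.2]
  obtain ⟨a, ha⟩ := Int.eq_ofNat_of_zero_le hnumpos.le
  have haR : (x.num : ℝ) = a := by rw [ha]; norm_cast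
  rw [haR] at h1
  have hcop : Nat.Coprime a x.den := by
    have := x.reduced
    rw [ha] at this
    simpa using this
  exact ⟨a, x.den, by omega, x.den_pos, lt_of_le_of_lt (le_max_left _ _) hx3, hcop, h1⟩

theorem sq_gap {p q : ℕ} (h1 : (10 : ℝ) ≤ (p : ℝ) + q)
    (h2 : 20 * ((p : ℝ) + q) ≤ ((p : ℝ) - q) ^ 2) : 2 * rr p q + 10 ≤ (p : ℝ) + q := by
  have h3 : 2 * rr p q = √(4 * ((p : ℝ) * q)) := by
    unfold rr
    rw [Real.sqrt_mul (show (0 : ℝ) ≤ 4 by norm_num) ((p : ℝ) * q)]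
    have : √(4 : ℝ) = 2 := by
      rw [show (4 : ℝ) = 2 ^ 2 by norm_num, Real.sqrt_sq (by norm_num)]
    rw [this]
  rw [h3]
  have h4 : √(4 * ((p : ℝ) * q)) ≤ p + q - 10 := by
    rw [Real.sqrt_le_left (by linarith)]
    nlinarith
  linarith

/-- slopes near a rational slope which is not of the special form -/
theorem nearby_rat {p q : ℕ} (hp : 0 < p) (hq : 0 < q) (hpq : Nat.Coprime p q)
    (h : 2 * rr p q ≤ (p : ℝ) + q - 1) :
    ∃ t : ℝ, 1 < t ∧ ∃ U ∈ 𝓝 ((p : ℝ) / q), ∀ᶠ α : ℝ in atTop, ∀ β' ∈ U, 0 < β' →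
      cnt β' α ≤ cnt ((p : ℝ) / q) α ∨ (cnt β' α : ℝ) ≤ α ^ 2 / 2 - t * α := by
  have hp' : (0 : ℝ) < p := by exact_mod_cast hp
  have hq' : (0 : ℝ) < q := by exact_mod_cast hq
  obtain ⟨t1, ht1, D1, hD1, h1⟩ := rat_above hp hq hpq h
  obtain ⟨t2, ht2, D2, hD2, h2⟩ := rat_above hq hp hpq.symm (by rw [rr_comm]; linarith)
  refine ⟨min t1 t2, lt_min ht1 ht2,
    {x | dl p q x < D1} ∩ {x | dl q p x⁻¹ < D2}, Filter.inter_mem ?_ ?_, ?_⟩
  · have : ContinuousAt (dl p q) ((p : ℝ) / q) := (dl_continuous p q).continuousAt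
    exact this.eventually_lt continuousAt_const (by rw [dl_self hq]; exact hD1)
  · have : ContinuousAt (fun x => dl q p x⁻¹) ((p : ℝ) / q) :=
      (dl_continuous q p).continuousAt.comp (continuousAt_inv₀ (by positivity))
    refine this.eventually_lt continuousAt_const ?_
    rw [inv_div, dl_self hp]
    exact hD2
  filter_upwards [h1, h2, eventually_ge_atTop (0 : ℝ)] with α h3 h4 hα β' hβ' hβ'0
  rcases le_or_gt ((p : ℝ) / q) β' with h5 | h5
  · rw [div_le_iff₀ hq'] at h5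
    rcases h3 β' hβ'0 (by linarith) (le_of_lt hβ'.1) with h6 | h6
    · exact Or.inl h6
    · right
      have := mul_le_mul_of_nonneg_right (min_le_left t1 t2) hα
      linarith
  · have h6 : (q : ℝ) ≤ p * β'⁻¹ := by
      rw [← div_eq_mul_inv, le_div_iff₀ hβ'0]
      rw [lt_div_iff₀ hq'] at h5
      linarith
    rcases h4 β'⁻¹ (inv_pos.2 hβ'0) h6 (le_of_lt hβ'.2) with h7 | h7
    · left
      rw [cnt_inv hβ'0] at h7
      have h8 : cnt ((q : ℝ) / p) α = cnt ((p : ℝ) / q) α := by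
        rw [← inv_div, cnt_inv (by positivity)]
      rwa [h8] at h7
    · right
      rw [cnt_inv hβ'0] at h7
      have := mul_le_mul_of_nonneg_right (min_le_right t1 t2) hα
      linarith

/-- slopes near an irrational slope -/
theorem nearby_irr {β : ℝ} (hβ : 0 < β) (hirr : Irrational β) :
    ∃ t : ℝ, 1 < t ∧ ∃ U ∈ 𝓝 β, ∀ᶠ α : ℝ in atTop, ∀ β' ∈ U, 0 < β' →
      (cnt β' α : ℝ) ≤ α ^ 2 / 2 - t * α := by
  have hβ1 : β - 1 ≠ 0 := by
    intro h
    have : β = ((1 : ℕ) : ℝ) := by push_cast; linarith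
    exact hirr.ne_nat 1 this
  have hb : 0 < (β - 1) ^ 2 := by positivity
  have hb' : 0 < |β - 1| := abs_pos.2 hβ1
  obtain ⟨K, hK⟩ := exists_nat_gt (80 * (β + 2) / (β - 1) ^ 2 + 2 / |β - 1| + 1 / β + 10)
  obtain ⟨p, q, hp, hq, hKq, hpq, hap⟩ := irr_approx hirr hβ K
  have hp' : (0 : ℝ) < p := by exact_mod_cast hp
  have hp1 : (1 : ℝ) ≤ p := by exact_mod_cast hp
  have hq' : (0 : ℝ) < q := by exact_mod_cast hq
  have hKq' : (K : ℝ) < q := by exact_mod_cast hKq
  have hk1 : 0 < 80 * (β + 2) / (β - 1) ^ 2 := by positivity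
  have hk2 : 0 < 2 / |β - 1| := by positivity
  have hk3 : 0 < 1 / β := by positivity
  have hq1 : 80 * (β + 2) / (β - 1) ^ 2 < q := by linarith
  have hq2 : 2 / |β - 1| < q := by linarith
  have hq3 : 1 / β < q := by linarith
  have hq4 : (10 : ℝ) < q := by linarith
  rw [div_lt_iff₀ hb] at hq1
  rw [div_lt_iff₀ hb'] at hq2
  rw [div_lt_iff₀ hβ] at hq3
  have hinv : (1 : ℝ) / q ≤ 1 / 10 := by
    apply div_le_div_of_nonneg_left (by norm_num) (by norm_num) hq4.le
  have hgap : 2 * rr p q + 10 ≤ (p : ℝ) + q := by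
    apply sq_gap (by linarith)
    rw [abs_lt] at hap
    have h1 : (q * |β - 1| / 2) ^ 2 ≤ ((p : ℝ) - q) ^ 2 := by
      rw [sq_le_sq, abs_of_pos (by positivity)]
      have h2 : q * |β - 1| = |q * (β - 1)| := by rw [abs_mul, abs_of_pos hq']
      have h3 : |q * (β - 1)| ≤ |(p : ℝ) - q| + 1 := by
        have e : q * (β - 1) = ((p : ℝ) - q) + (q * β - p) := by ring
        rw [e]
        refine (abs_add_le _ _).trans ?_
        have : |q * β - p| ≤ 1 := by
          rw [abs_le]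
          constructor <;> linarith
        linarith
      linarith
    have h2 : (q * |β - 1| / 2) ^ 2 = q ^ 2 * (β - 1) ^ 2 / 4 := by
      rw [div_pow, mul_pow, sq_abs]
      ring
    rw [h2] at h1
    have h3 : (p : ℝ) + q ≤ q * (β + 2) := by nlinarith
    have h4 : q * (80 * (β + 2)) ≤ q * (q * (β - 1) ^ 2) :=
      mul_le_mul_of_nonneg_left hq1.le hq'.le
    nlinarith
  have hne : (q : ℝ) * β - p ≠ 0 := by
    intro h
    apply hirr
    refine ⟨(p : ℚ) / q, ?_⟩
    push_cast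
    field_simp
    linarith
  rcases lt_or_gt_of_ne hne with h | h
  · -- `q β < p`
    obtain ⟨t, ht, h1⟩ := noncrit hq hp hpq.symm (D := 2) (by norm_num) (by
      rw [rr_comm]; linarith)
    refine ⟨t, ht, {x | q * x < p} ∩ {x | dl q p x⁻¹ < 2}, Filter.inter_mem ?_ ?_, ?_⟩
    · have : ContinuousAt (fun x : ℝ => (q : ℝ) * x) β := by fun_prop
      exact this.eventually_lt continuousAt_const (by linarith)
    · have : ContinuousAt (fun x => dl q p x⁻¹) β :=
        (dl_continuous q p).continuousAt.comp (continuousAt_inv₀ hβ.ne')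
      refine this.eventually_lt continuousAt_const ?_
      unfold dl
      rw [RR_sq (inv_pos.2 hβ)]
      have e : (p : ℝ) ^ 2 * β⁻¹ - q * p = (p * (p - q * β)) / β := by
        field_simp
      rw [e, div_lt_iff₀ hβ]
      rw [abs_lt] at hap
      have h2 : (p : ℝ) * (p - q * β) ≤ p * (1 / q) :=
        mul_le_mul_of_nonneg_left (by linarith) hp'.le
      have h3 : (p : ℝ) * (1 / q) < 2 * β := by
        rw [mul_one_div, div_lt_iff₀ hq']
        nlinarith
      linarith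
    filter_upwards [h1] with α h2 β' hβ' hβ'0
    rw [← cnt_inv hβ'0]
    apply h2 β'⁻¹ (inv_pos.2 hβ'0) _ (le_of_lt hβ'.2)
    rw [← div_eq_mul_inv, le_div_iff₀ hβ'0]
    exact le_of_lt hβ'.1
  · obtain ⟨t, ht, h1⟩ := noncrit hp hq hpq (D := 2) (by norm_num) (by linarith)
    refine ⟨t, ht, {x | (p : ℝ) < q * x} ∩ {x | dl p q x < 2}, Filter.inter_mem ?_ ?_, ?_⟩
    · have : ContinuousAt (fun x : ℝ => (q : ℝ) * x) β := by fun_prop
      exact continuousAt_const.eventually_lt this (by linarith)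
    · have : ContinuousAt (dl p q) β := (dl_continuous p q).continuousAt
      refine this.eventually_lt continuousAt_const ?_
      unfold dl
      rw [RR_sq hβ]
      rw [abs_lt] at hap
      have h2 : (q : ℝ) * (q * β - p) < q * (1 / q) := mul_lt_mul_of_pos_left hap.2 hq'
      have h3 : (q : ℝ) * (1 / q) = 1 := by field_simp
      nlinarith
    filter_upwards [h1] with α h2 β' hβ' hβ'0
    exact h2 β' hβ'0 (le_of_lt hβ'.1) (le_of_lt hβ'.2)

theorem nearby {β : ℝ} (hβ : 0 < β)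
    (hnot : ∀ p q : ℕ, 0 < p → 0 < q → Nat.Coprime p q → β = (p : ℝ) / q →
      2 * rr p q ≤ (p : ℝ) + q - 1) :
    ∃ t : ℝ, 1 < t ∧ ∃ U ∈ 𝓝 β, ∀ᶠ α : ℝ in atTop, ∀ β' ∈ U, 0 < β' →
      cnt β' α ≤ cnt β α ∨ (cnt β' α : ℝ) ≤ α ^ 2 / 2 - t * α := by
  by_cases hirr : Irrational β
  · obtain ⟨t, ht, U, hU, h⟩ := nearby_irr hβ hirr
    refine ⟨t, ht, U, hU, ?_⟩
    filter_upwards [h] with α h1 β' hβ' hβ'0
    exact Or.inr (h1 β' hβ' hβ'0)
  · rw [Irrational, not_not] at hirr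
    obtain ⟨x, hx⟩ := hirr
    have hx0 : 0 < x := by
      have : (0 : ℝ) < x := by rw [hx]; exact hβ
      exact_mod_cast this
    have hnum : 0 < x.num := Rat.num_pos.2 hx0
    obtain ⟨a, ha⟩ := Int.eq_ofNat_of_zero_le hnum.le
    have ha0 : 0 < a := by omega
    have hcop : Nat.Coprime a x.den := by
      have := x.reduced
      rw [ha] at this
      simpa using this
    have hxe : β = (a : ℝ) / x.den := by
      have h1 : (x.num : ℝ) = a := by
        rw [ha, Int.cast_natCast]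
      rw [← hx, Rat.cast_def, h1]
    rw [hxe]
    exact nearby_rat ha0 x.den_pos hcop (hnot a x.den ha0 x.den_pos hcop hxe)

end Pool.Agent.E8helper63.LT
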