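import Mathlib
import Pool.Agent.W654.Kron
import Pool.Agent.H383.LinIndep

/-!
# Kronecker's theorem for ratios of square roots
-/

set_option autoImplicit false

open Finset

namespace Pool.Agent.E8helper63.LT

theorem kron_sqrt {k : ℕ} (hk : Squarefree k) (F : Finset ℕ)
    (hF : ∀ j ∈ F, Squarefree j ∧ j ≠ k) {L : ℕ} (hL : 0 < L) (x : ℕ → ℝ) {ε : ℝ} (hε : 0 < ε)
    (N0 : ℕ) :
    ∃ M : ℕ, N0 ≤ M ∧ ∀ j ∈ F, ∃ m : ℤ, |M * (L * (√(j : ℝ) / √(k : ℝ))) - x j - m| < ε := by
  classical
  set y : F → ℝ := fun j => L * (√((j : ℕ) : ℝ) / √(k : ℝ)) with hy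
  set z : UnitAddTorus F := fun j => ((y j : ℝ) : UnitAddCircle) with hz
  set X : UnitAddTorus F := fun j => ((x j - N0 * y j : ℝ) : UnitAddCircle) with hX
  have hk0 : 0 < k := Nat.pos_of_ne_zero hk.ne_zero
  have hsk : 0 < √(k : ℝ) := Real.sqrt_pos.2 (by exact_mod_cast hk0)
  have hind : ∀ c : F → ℤ, ∑ i, c i • z i = 0 → ∀ i, c i = 0 := by
    intro c hc
    have h1 : ∑ i, c i • z i = ((∑ i, (c i : ℝ) * y i : ℝ) : UnitAddCircle) := by
      have : ((∑ i, (c i : ℝ) * y i : ℝ) : UnitAddCircle) =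
          ∑ i, (((c i : ℝ) * y i : ℝ) : UnitAddCircle) := by
        exact map_sum (QuotientAddGroup.mk' (AddSubgroup.zmultiples (1 : ℝ))) _ _
      rw [this]
      refine sum_congr rfl fun i _ => ?_
      rw [hz]
      simp only
      rw [← AddCircle.coe_zsmul, zsmul_eq_mul]
    rw [h1, AddCircle.coe_eq_zero_iff] at hc
    obtain ⟨n, hn⟩ := hc
    rw [zsmul_eq_mul, mul_one] at hn
    -- independence
    let e : Option F → {s : ℕ // Squarefree s} := fun o =>
      match o with
      | none => ⟨k, hk⟩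
      | some j => ⟨j, (hF j j.2).1⟩
    have he : Function.Injective e := by
      intro a b hab
      match a, b with
      | none, none => rfl
      | none, some j =>
        exfalso
        have : k = (j : ℕ) := congrArg Subtype.val hab
        exact (hF j j.2).2 this.symm
      | some j, none =>
        exfalso
        have : (j : ℕ) = k := congrArg Subtype.val hab
        exact (hF j j.2).2 this
      | some i, some j =>
        have : (i : ℕ) = j := congrArg (fun s : {s : ℕ // Squarefree s} => s.1) hab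
        rw [Subtype.ext this]
    have hli := Pool.Agent.H383.Gauss.sf_indep.comp e he
    rw [Fintype.linearIndependent_iff] at hli
    have h2 := hli (fun o => match o with
      | none => -(n : ℚ)
      | some j => (c j : ℚ) * L) (by
        rw [Fintype.sum_option]
        simp only [Function.comp, e]
        have h3 : ∑ i : F, ((c i : ℚ) * L) • √((i : ℕ) : ℝ) = n * √(k : ℝ) := by
          rw [hn, sum_mul]
          refine sum_congr rfl fun i _ => ?_
          rw [hy]
          simp only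
          rw [Rat.smul_def]
          push_cast
          field_simp
        rw [h3, Rat.smul_def]
        push_cast
        ring)
    intro i
    have h3 := h2 (some i)
    simp only at h3
    have hL' : (L : ℚ) ≠ 0 := by exact_mod_cast hL.ne'
    have h4 : (c i : ℚ) = 0 := by
      rcases mul_eq_zero.1 h3 with h | h
      · exact h
      · exact absurd h hL'
    exact_mod_cast h4
  obtain ⟨n, hn⟩ := Pool.Agent.W654.Kron.kronecker z X (by
    intro c hc
    have h1 := hind c hc
    refine sum_eq_zero fun i _ => ?_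
    rw [h1 i, zero_smul]) ε hε
  refine ⟨n + N0, Nat.le_add_left _ _, fun j hj => ?_⟩
  have h1 : dist ((n • z) ⟨j, hj⟩) (X ⟨j, hj⟩) < ε := lt_of_le_of_lt (dist_le_pi_dist _ _ _) hn
  have h2 : (n • z) ⟨j, hj⟩ = ((n * y ⟨j, hj⟩ : ℝ) : UnitAddCircle) := by
    rw [Pi.smul_apply, hz]
    simp only
    rw [← AddCircle.coe_nsmul, nsmul_eq_mul]
  rw [h2, hX, dist_eq_norm] at h1
  simp only at h1
  rw [← AddCircle.coe_sub, UnitAddCircle.norm_eq] at h1
  refine ⟨round ((n : ℝ) * y ⟨j, hj⟩ - (x j - N0 * y ⟨j, hj⟩)), ?_⟩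
  have e1 : ((n + N0 : ℕ) : ℝ) * (L * (√(j : ℝ) / √(k : ℝ))) - x j -
      round ((n : ℝ) * y ⟨j, hj⟩ - (x j - N0 * y ⟨j, hj⟩)) =
      (n : ℝ) * y ⟨j, hj⟩ - (x j - N0 * y ⟨j, hj⟩) -
        round ((n : ℝ) * y ⟨j, hj⟩ - (x j - N0 * y ⟨j, hj⟩)) := by
    rw [hy]
    push_cast
    ring
  rw [e1]
  exact h1

end Pool.Agent.E8helper63.LT
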