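import Mathlib
import Pool.Agent.E8helper63.LT.Gap

/-!
# Lattice points in right triangles: slopes close to a rational number, the critical cases
-/

set_option autoImplicit false

open Finset Filter

namespace Pool.Agent.E8helper63.LT

theorem close_tie {p q : ℕ} (hp : 0 < p) (hq : 0 < q) (hpq : Nat.Coprime p q)
    (t C : ℝ) (ht1 : t ≤ 1)
    (hd0 : 0 ≤ t * rr p q - ((p : ℝ) + q - 1) / 2)
    (hd1 : t * rr p q - ((p : ℝ) + q - 1) / 2 < 1 / 2) :
    ∀ᶠ α : ℝ in atTop, ∀ β : ℝ, 0 < β → (p : ℝ) ≤ q * β → dl p q β ≤ 1 →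
      nb q β α * dl p q β ≤ C →
      ∀ n : ℕ, α * rr p q = n + (t * rr p q - ((p : ℝ) + q - 1) / 2) →
      cnt β α ≤ cn p q n ∨ (cnt β α : ℝ) ≤ α ^ 2 / 2 - t * α - 1 := by
  set d : ℝ := t * rr p q - ((p : ℝ) + q - 1) / 2 with hd
  set u : ℝ := 1 - 2 * d with hu
  have hu0 : 0 < u := by linarith
  have hu1 : u ≤ 1 := by linarith
  have h := close_gap hp hq hpq t C (C + 1) (u ^ 2 / 4) ht1 (by positivity) (by positivity)
  have hw := window hp hq C (ε := u / 4) (by linarith)
  filter_upwards [h, hw] with α h1 hw β hβ h2 h3 h4 n hn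
  obtain ⟨_, hw1, hw2⟩ := hw β hβ h2 h3 h4
  have hδ0 := dl_nonneg hβ h2
  rcases lt_or_ge (α * RR q β) (n + 1) with hlt | hge
  · left
    exact cnt_le_cn hp hq h2 hlt
  right
  apply h1 β hβ h2 h3 h4
  rw [← hd]
  set x := α * RR q β with hx
  set I : ℝ := (nb q β α : ℝ) with hI
  set δ := dl p q β with hδ
  have hI0 : 0 ≤ I := Nat.cast_nonneg _
  have hw2' : 2 * x - I * δ ≤ 2 * (α * rr p q) + u / 4 := by
    have : (I - 1) * δ = I * δ - δ := by ring
    linarith
  rw [hn] at hw1 hw2'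
  have hc : 1 + 3 * u / 4 ≤ I * δ := by linarith
  have hδpos : 0 < δ := by
    rcases hδ0.lt_or_eq with h5 | h5
    · exact h5
    · rw [← h5, mul_zero] at hc
      linarith
  have hρ : Int.fract (2 * x - I * δ) = 2 * x - I * δ - 2 * n := by
    rw [Int.fract_eq_iff]
    refine ⟨by linarith, by linarith, 2 * n, ?_⟩
    push_cast
    ring
  have hmain := sum_fract_rho x hδpos h3 (nb q β α)
  rw [← hI, hρ] at hmain
  set ρ := 2 * x - I * δ - 2 * n with hρd
  have hρ1 : 1 - u ≤ ρ := by linarith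
  have hρ2 : ρ ≤ 1 - 3 * u / 4 := by linarith
  have hb : ρ * (1 - ρ) / (2 * δ) ≤ I * (u / 2 - u ^ 2 / 4) := by
    rw [div_le_iff₀ (by linarith)]
    have h5 : ρ * (1 - ρ) ≤ (1 - 3 * u / 4) * u := by
      have h6 : 1 - ρ ≤ u := by linarith
      have h7 : 0 ≤ 1 - ρ := by linarith
      calc ρ * (1 - ρ) ≤ (1 - 3 * u / 4) * (1 - ρ) := mul_le_mul_of_nonneg_right hρ2 h7
        _ ≤ (1 - 3 * u / 4) * u := mul_le_mul_of_nonneg_left h6 (by linarith)
    have h6 : (1 + 3 * u / 4) * (u - u ^ 2 / 2) ≤ (I * δ) * (u - u ^ 2 / 2) :=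
      mul_le_mul_of_nonneg_right hc (by nlinarith)
    have h7 : (1 - 3 * u / 4) * u ≤ (1 + 3 * u / 4) * (u - u ^ 2 / 2) := by
      nlinarith [mul_pos hu0 hu0, mul_nonneg (mul_pos hu0 hu0).le (by linarith : (0 : ℝ) ≤ 1 - u)]
    linarith
  have e : I * (d + u ^ 2 / 4) = I / 2 - I * (u / 2 - u ^ 2 / 4) := by
    rw [hu]; ring
  show I * (d + u ^ 2 / 4) - (C + 1) ≤ ss p q β α
  rw [e]
  have : ss p q β α = ∑ i ∈ range (nb q β α), Int.fract (x - i * δ) := rfl
  rw [this]
  linarith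

theorem close_half {p q : ℕ} (hp : 0 < p) (hq : 0 < q) (hpq : Nat.Coprime p q)
    (t C : ℝ) (ht1 : t ≤ 1)
    (hd0 : 0 ≤ t * rr p q - ((p : ℝ) + q - 1) / 2)
    (hd1 : t * rr p q - ((p : ℝ) + q - 1) / 2 < 1 / 2) :
    ∀ᶠ α : ℝ in atTop, ∀ β : ℝ, 0 < β → (p : ℝ) ≤ q * β → dl p q β ≤ 1 →
      nb q β α * dl p q β ≤ C →
      ∀ n : ℤ, α * rr p q = n + 1 / 2 + (t * rr p q - ((p : ℝ) + q - 1) / 2) →
      (cnt β α : ℝ) ≤ α ^ 2 / 2 - t * α - 1 := by
  set d : ℝ := t * rr p q - ((p : ℝ) + q - 1) / 2 with hd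
  set u : ℝ := 1 - 2 * d with hu
  have hu0 : 0 < u := by linarith
  have hu1 : u ≤ 1 := by linarith
  have hg : 0 < u ^ 2 / 8 := by positivity
  have h := close_gap hp hq hpq t C (|C| + 1) (u ^ 2 / 8) ht1 hg (by positivity)
  have hw := window hp hq C (ε := u / 4) (by linarith)
  filter_upwards [h, hw] with α h1 hw β hβ h2 h3 h4 n hn
  obtain ⟨_, hw1, hw2⟩ := hw β hβ h2 h3 h4
  have hδ0 := dl_nonneg hβ h2
  apply h1 β hβ h2 h3 h4
  rw [← hd]
  set x := α * RR q β with hx
  set I : ℝ := (nb q β α : ℝ) with hI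
  set δ := dl p q β with hδ
  have hI0 : 0 ≤ I := Nat.cast_nonneg _
  have hw2' : 2 * x - I * δ ≤ 2 * (α * rr p q) + u / 4 := by
    have : (I - 1) * δ = I * δ - δ := by ring
    linarith
  rw [hn] at hw1 hw2'
  have hss : ss p q β α = ∑ i ∈ range (nb q β α), Int.fract (x - i * δ) := rfl
  have hC1 := le_abs_self C
  have hC0 := abs_nonneg C
  rw [hss]
  rcases le_or_gt (1 - u / 4) (I * δ) with hc | hc
  · -- long window
    have hδpos : 0 < δ := by
      rcases hδ0.lt_or_eq with h5 | h5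
      · exact h5
      · rw [← h5, mul_zero] at hc
        linarith
    have hρ : Int.fract (2 * x - I * δ) = 2 * x - I * δ - (2 * n + 1) := by
      rw [Int.fract_eq_iff]
      refine ⟨by linarith, by linarith, 2 * n + 1, ?_⟩
      push_cast
      ring
    have hmain := sum_fract_rho x hδpos h3 (nb q β α)
    rw [← hI, hρ] at hmain
    set ρ := 2 * x - I * δ - (2 * n + 1) with hρd
    have hρ1 : 1 - u ≤ ρ := by linarith
    have hρ2 : ρ ≤ 1 - 3 * u / 4 := by linarith
    have hb : ρ * (1 - ρ) / (2 * δ) ≤ I * (u / 2 - u ^ 2 / 8) := by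
      rw [div_le_iff₀ (by linarith)]
      have h5 : ρ * (1 - ρ) ≤ (1 - 3 * u / 4) * u := by
        have h6 : 1 - ρ ≤ u := by linarith
        have h7 : 0 ≤ 1 - ρ := by linarith
        calc ρ * (1 - ρ) ≤ (1 - 3 * u / 4) * (1 - ρ) := mul_le_mul_of_nonneg_right hρ2 h7
          _ ≤ (1 - 3 * u / 4) * u := mul_le_mul_of_nonneg_left h6 (by linarith)
      have h6 : (1 - u / 4) * (u - u ^ 2 / 4) ≤ (I * δ) * (u - u ^ 2 / 4) :=
        mul_le_mul_of_nonneg_right hc (by nlinarith)
      have h7 : (1 - 3 * u / 4) * u ≤ (1 - u / 4) * (u - u ^ 2 / 4) := by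
        have e1 : (1 - u / 4) * (u - u ^ 2 / 4) - (1 - 3 * u / 4) * u = u ^ 2 / 4 + u ^ 3 / 16 := by
          ring
        have e2 : 0 ≤ u ^ 2 / 4 + u ^ 3 / 16 := by positivity
        linarith
      linarith
    have e : I * (d + u ^ 2 / 8) = I / 2 - I * (u / 2 - u ^ 2 / 8) := by
      rw [hu]; ring
    rw [e]
    linarith
  · -- short window
    have hγ : (1 : ℝ) - u / 4 ≤ 1 := by linarith
    rcases lt_or_ge x (n + 1) with hlt | hge
    · have hterm : ∀ i ∈ range (nb q β α), d + u / 8 ≤ Int.fract (x - i * δ) := by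
        intro i hi
        rw [mem_range] at hi
        have hi' : (i : ℝ) ≤ I := by
          rw [hI]
          exact_mod_cast hi.le
        have h5 : (i : ℝ) * δ ≤ I * δ := mul_le_mul_of_nonneg_right hi' hδ0
        have h6 : 0 ≤ (i : ℝ) * δ := by positivity
        have h7 : Int.fract (x - i * δ) = x - i * δ - n := by
          rw [Int.fract_eq_iff]
          refine ⟨by linarith, by linarith, n, ?_⟩
          ring
        rw [h7]
        linarith
      have h5 := sum_le_sum hterm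
      rw [sum_const, card_range, nsmul_eq_mul, ← hI] at h5
      have h6 : u ^ 2 / 8 ≤ u / 8 := by nlinarith
      have h7 : I * (d + u ^ 2 / 8) ≤ I * (d + u / 8) := mul_le_mul_of_nonneg_left (by linarith) hI0
      linarith
    · have hcpos : 3 * u / 4 ≤ I * δ := by linarith
      have hδpos : 0 < δ := by
        rcases hδ0.lt_or_eq with h5 | h5
        · exact h5
        · rw [← h5, mul_zero] at hcpos
          linarith
      have hf : Int.fract x = x - (n + 1) := by
        rw [Int.fract_eq_iff]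
        refine ⟨by linarith, by linarith, n + 1, ?_⟩
        push_cast
        ring
      have hg' : Int.fract (x - I * δ) = x - I * δ - n := by
        rw [Int.fract_eq_iff]
        refine ⟨by linarith, by linarith, n, ?_⟩
        ring
      have hmain := sum_fract_ge x hδpos h3 (nb q β α)
      rw [← hI, hf, hg'] at hmain
      have hprod : (x - (n + 1)) * (1 - (x - (n + 1))) - (x - I * δ - n) * (1 - (x - I * δ - n)) =
          (I * δ - 1) * (2 - (2 * x - I * δ - 2 * n)) := by ring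
      have hneg : (I * δ - 1) * (2 - (2 * x - I * δ - 2 * n)) ≤ 0 :=
        mul_nonpos_of_nonpos_of_nonneg (by linarith) (by linarith)
      rw [hprod] at hmain
      have h5 : (I * δ - 1) * (2 - (2 * x - I * δ - 2 * n)) / (2 * δ) ≤ 0 :=
        div_nonpos_of_nonpos_of_nonneg hneg (by linarith)
      have h6 : I * (d + u ^ 2 / 8) ≤ I * (1 / 2) := by
        apply mul_le_mul_of_nonneg_left _ hI0
        have : u ^ 2 ≤ u := by nlinarith
        linarith
      linarith

end Pool.Agent.E8helper63.LT
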