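import Mathlib
import Pool.Agent.E8helper63.LT.Block
import Pool.Agent.E8helper63.LT.Far
import Pool.Agent.E8helper63.LT.Tie
import Pool.Agent.E8helper63.LT.KronSqrt

/-!
# Lattice points in right triangles: rational slopes `p / q` with `p + q - 1 < 2 √(p q)`
are maximisers for arbitrarily large areas
-/

set_option autoImplicit false

open Finset Filter

namespace Pool.Agent.E8helper63.LT

theorem cn_value {p q k s e L M v : ℕ} (hp : 0 < p) (hq : 0 < q) (hpq : Nat.Coprime p q)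
    (hk : 0 < k) (hs : s ^ 2 * k = p * q) (he : e ≤ 1) (hL : p * q ∣ L)
    (hv : e * s + p + q = 2 * v + 1) :
    (cn p q (s * L * M + v) : ℝ) = (((L : ℝ) * M) ^ 2 + e * ((L : ℝ) * M)) / (2 * k) := by
  obtain ⟨l, rfl⟩ := hL
  have h1 : s * (p * q * l) * M + v = v + p * q * (s * l * M) := by ring
  have h2 : v < p + q := by
    have h3 : s ≤ p + q := by
      by_contra hc
      push Not at hc
      have h4 : s ^ 2 ≤ p * q := by
        rw [← hs]
        exact Nat.le_mul_of_pos_right _ hk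
      nlinarith
    have h5 : e * s ≤ 1 * s := Nat.mul_le_mul_right _ he
    omega
  rw [h1, cn_mul hp hq hpq, cn_small h2]
  have hv' : (e : ℝ) * s + p + q = 2 * v + 1 := by exact_mod_cast hv
  have hs' : (s : ℝ) ^ 2 * k = p * q := by exact_mod_cast hs
  have hk' : (k : ℝ) ≠ 0 := by exact_mod_cast hk.ne'
  have e1 : (v : ℝ) - ((p : ℝ) + q - 1) / 2 = e * s / 2 := by linarith
  rw [e1]
  push_cast
  rw [← hs']
  field_simp
  ring

theorem alpha_mul {p q k s : ℕ} (hk : 0 < k) (hs : s ^ 2 * k = p * q) (y t : ℝ) :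
    (y / √(k : ℝ) + t) * rr p q = s * y + t * rr p q := by
  have hsk : 0 < √(k : ℝ) := Real.sqrt_pos.2 (by exact_mod_cast hk)
  have h : rr p q = s * √(k : ℝ) := by
    unfold rr
    have h1 : (p : ℝ) * q = (s : ℝ) ^ 2 * k := by exact_mod_cast hs.symm
    rw [h1, Real.sqrt_mul (by positivity), Real.sqrt_sq (by positivity)]
  rw [add_mul]
  congr 1
  rw [h]
  field_simp

theorem rr_eq {p q k s : ℕ} (hs : s ^ 2 * k = p * q) : rr p q = s * √(k : ℝ) := by
  unfold rr
  have h1 : (p : ℝ) * q = (s : ℝ) ^ 2 * k := by exact_mod_cast hs.symm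
  rw [h1, Real.sqrt_mul (by positivity), Real.sqrt_sq (by positivity)]

theorem rat_mem {p0 q0 : ℕ} (hp0 : 0 < p0) (hq0 : 0 < q0) (hpq0 : Nat.Coprime p0 q0)
    (h0 : (p0 : ℝ) + q0 - 1 < 2 * rr p0 q0) (A : ℝ) :
    ∃ α : ℝ, A < α ∧ ∀ β : ℝ, 0 < β → cnt β α ≤ cnt ((p0 : ℝ) / q0) α := by
  classical
  have hr0 := one_le_rr hp0 hq0
  have hp0' : (1 : ℝ) ≤ p0 := by exact_mod_cast hp0
  have hq0' : (1 : ℝ) ≤ q0 := by exact_mod_cast hq0
  set t : ℝ := ((p0 : ℝ) + q0 - 1) / (2 * rr p0 q0) with ht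
  have ht0 : 0 ≤ t := div_nonneg (by linarith) (by linarith)
  have ht1 : t < 1 := by
    rw [ht, div_lt_one (by linarith)]
    exact h0
  have htr : t * rr p0 q0 = ((p0 : ℝ) + q0 - 1) / 2 := by
    rw [ht]; field_simp
  obtain ⟨B, C, hfar⟩ := far t ht0 ht1
  have hsqf : ∀ n : ℕ, ∃ a b : ℕ, b ^ 2 * a = n ∧ Squarefree a := fun n => Nat.sq_mul_squarefree n
  obtain ⟨k, s0, hs0, hk⟩ := hsqf (p0 * q0)
  have hk0 : 0 < k := Nat.pos_of_ne_zero hk.ne_zero
  have hsk : 0 < √(k : ℝ) := Real.sqrt_pos.2 (by exact_mod_cast hk0)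
  -- choice of the parity
  obtain ⟨e, he, v0, hv0⟩ : ∃ e : ℕ, e ≤ 1 ∧ ∃ v, e * s0 + p0 + q0 = 2 * v + 1 := by
    rcases Nat.even_or_odd (p0 + q0) with h | h
    · refine ⟨1, le_refl _, ?_⟩
      have h1 : Odd (p0 * q0) := by
        rw [Nat.odd_mul]
        rcases Nat.even_or_odd p0 with h2 | h2
        · exfalso
          have h3 : Even q0 := (Nat.even_add.1 h).1 h2
          have h4 := Nat.dvd_gcd h2.two_dvd h3.two_dvd
          rw [hpq0] at h4
          omega
        · refine ⟨h2, ?_⟩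
          by_contra hc
          rw [Nat.not_odd_iff_even] at hc
          have := (Nat.even_add.1 h).2 hc
          exact (Nat.not_even_iff_odd.2 h2) this
      rw [← hs0, Nat.odd_mul] at h1
      have h2 : Odd s0 := by
        by_contra hc
        rw [Nat.not_odd_iff_even] at hc
        have : Even (s0 ^ 2) := hc.pow_of_ne_zero (by norm_num)
        exact (Nat.not_even_iff_odd.2 h1.1) this
      obtain ⟨a, ha⟩ := h2
      obtain ⟨b, hb⟩ := h
      exact ⟨a + b, by omega⟩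
    · refine ⟨0, by norm_num, ?_⟩
      obtain ⟨b, hb⟩ := h
      exact ⟨b, by omega⟩
  have heR : (e : ℝ) ≤ 1 := by exact_mod_cast he
  have heR0 : (0 : ℝ) ≤ e := Nat.cast_nonneg _
  set L : ℕ := (B * B + p0 * q0).factorial with hL
  have hLpos : 0 < L := Nat.factorial_pos _
  have hL1 : (1 : ℝ) ≤ L := by exact_mod_cast hLpos
  have hdvd0 : p0 * q0 ∣ L := Nat.dvd_factorial (Nat.mul_pos hp0 hq0) (Nat.le_add_left _ _)
  have hdvd : ∀ p q : ℕ, 0 < p → 0 < q → p ≤ B → q ≤ B → p * q ∣ L := fun p q h1 h2 h3 h4 =>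
    Nat.dvd_factorial (Nat.mul_pos h1 h2) ((Nat.mul_le_mul h3 h4).trans (Nat.le_add_right _ _))
  set η : ℝ := (1 - t) / 4 with hη
  have hηpos : 0 < η := by rw [hη]; linarith
  set F : Finset ℕ := (range (B * B + 1)).filter (fun j => Squarefree j ∧ j ≠ k) with hF
  set x : ℕ → ℝ := fun j => η * √(j : ℝ) - e / 2 * (√(j : ℝ) / √(k : ℝ)) with hx
  set ε : ℝ := η / (2 * (B + 1)) with hε
  have hεpos : 0 < ε := by positivity
  -- the local estimates
  have hloc : ∀ᶠ α : ℝ in atTop, ∀ p ∈ range (B + 1), ∀ q ∈ range (B + 1),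
      0 < p → 0 < q → Nat.Coprime p q →
      (t * rr p q - ((p : ℝ) + q - 1) / 2 < 0 → ∀ β : ℝ, 0 < β → (p : ℝ) ≤ q * β →
        dl p q β ≤ 1 → nb q β α * dl p q β ≤ C → (cnt β α : ℝ) ≤ α ^ 2 / 2 - t * α - 1) ∧
      (0 ≤ t * rr p q - ((p : ℝ) + q - 1) / 2 →
       (∀ β : ℝ, 0 < β → (p : ℝ) ≤ q * β → dl p q β ≤ 1 →
          nb q β α * dl p q β ≤ C →
          ∀ n : ℕ, α * rr p q = n + (t * rr p q - ((p : ℝ) + q - 1) / 2) →
          cnt β α ≤ cn p q n ∨ (cnt β α : ℝ) ≤ α ^ 2 / 2 - t * α - 1) ∧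
       (∀ β : ℝ, 0 < β → (p : ℝ) ≤ q * β → dl p q β ≤ 1 →
          nb q β α * dl p q β ≤ C →
          ∀ n : ℤ, α * rr p q = n + 1 / 2 + (t * rr p q - ((p : ℝ) + q - 1) / 2) →
          (cnt β α : ℝ) ≤ α ^ 2 / 2 - t * α - 1) ∧
       (∀ β : ℝ, 0 < β → (p : ℝ) ≤ q * β → dl p q β ≤ 1 →
          nb q β α * dl p q β ≤ C →
          2 * (t * rr p q - ((p : ℝ) + q - 1) / 2 + η / 2) ≤ Int.fract (2 * (α * rr p q)) →
          Int.fract (2 * (α * rr p q)) ≤ 1 - η / 2 →
          (cnt β α : ℝ) ≤ α ^ 2 / 2 - t * α - 1)) := by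
    rw [Filter.eventually_all_finset]
    intro p _
    rw [Filter.eventually_all_finset]
    intro q _
    by_cases h1 : 0 < p ∧ 0 < q ∧ Nat.Coprime p q
    · obtain ⟨hp, hq, hpq⟩ := h1
      have hr1 := one_le_rr hp hq
      have h2r := two_rr_le p q
      rcases lt_or_ge (t * rr p q - ((p : ℝ) + q - 1) / 2) 0 with hd | hd
      · filter_upwards [close_neg hp hq hpq t C ht1.le hd] with α h2 _ _ _
        exact ⟨fun _ => h2, fun h => absurd h (not_le.2 hd)⟩
      · have hd1 : t * rr p q - ((p : ℝ) + q - 1) / 2 < 1 / 2 := by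
          have : t * rr p q < 1 * rr p q := mul_lt_mul_of_pos_right ht1 (by linarith)
          linarith
        filter_upwards [close_tie hp hq hpq t C ht1.le hd hd1,
          close_half hp hq hpq t C ht1.le hd hd1,
          close_other hp hq hpq t C (η / 2) ht1.le (by linarith) hd] with α h2 h3 h4 _ _ _
        exact ⟨fun h => absurd h (not_lt.2 hd), fun _ => ⟨h2, h3, h4⟩⟩
    · exact Eventually.of_forall fun α h2 h3 h4 => absurd ⟨h2, h3, h4⟩ h1
  obtain ⟨A0, hA0⟩ := Filter.eventually_atTop.1 (hfar.and hloc)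
  -- choice of the area parameter
  obtain ⟨N0, hN0⟩ := exists_nat_gt ((|A0| + |A| + 1) * √(k : ℝ))
  obtain ⟨M, hM, hM2⟩ := kron_sqrt hk F (fun j hj => by
    rw [hF, mem_filter] at hj
    exact hj.2) hLpos x hεpos N0
  set y : ℝ := (L : ℝ) * M + e / 2 with hy
  set α : ℝ := y / √(k : ℝ) + t with hα
  have hMy : (M : ℝ) ≤ y := by
    have : (0 : ℝ) ≤ M := Nat.cast_nonneg _
    rw [hy]
    nlinarith
  have hαbig : |A0| + |A| + 1 ≤ α := by
    have h1 : (N0 : ℝ) ≤ M := by exact_mod_cast hM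
    have h2 : |A0| + |A| + 1 ≤ y / √(k : ℝ) := by
      rw [le_div_iff₀ hsk]
      linarith
    linarith
  have hαA : A < α := by
    have := le_abs_self A
    have := abs_nonneg A0
    linarith
  have hαA0 : A0 ≤ α := by
    have := le_abs_self A0
    have := abs_nonneg A
    linarith
  have hα0 : 0 < α := by
    have := abs_nonneg A0
    have := abs_nonneg A
    linarith
  refine ⟨α, hαA, ?_⟩
  obtain ⟨hf, hl⟩ := hA0 α hαA0
  -- the value at the rational slope
  have hval : (cnt ((p0 : ℝ) / q0) α : ℝ) =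
      (((L : ℝ) * M) ^ 2 + e * ((L : ℝ) * M)) / (2 * k) := by
    rw [cnt_rat hp0 hq0 hα0.le]
    have h1 : α * √((p0 : ℝ) * q0) = ((s0 * L * M + v0 : ℕ) : ℝ) := by
      have h2 : α * √((p0 : ℝ) * q0) = α * rr p0 q0 := rfl
      rw [h2, hα, alpha_mul hk0 hs0, htr, hy]
      have h3 : (e : ℝ) * s0 + p0 + q0 = 2 * v0 + 1 := by exact_mod_cast hv0
      push_cast
      linarith
    rw [h1, Nat.floor_natCast]
    exact cn_value hp0 hq0 hpq0 hk0 hs0 he hdvd0 hv0
  have htarget : α ^ 2 / 2 - t * α - 1 ≤ (((L : ℝ) * M) ^ 2 + e * ((L : ℝ) * M)) / (2 * k) := by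
    have h1 : α ^ 2 / 2 - t * α = y ^ 2 / (2 * k) - t ^ 2 / 2 := by
      have h2 : √(k : ℝ) ^ 2 = k := Real.sq_sqrt (by positivity)
      have h3 : (y / √(k : ℝ)) ^ 2 = y ^ 2 / k := by rw [div_pow, h2]
      have h4 : α ^ 2 / 2 - t * α = (y / √(k : ℝ)) ^ 2 / 2 - t ^ 2 / 2 := by rw [hα]; ring
      rw [h4, h3]
      ring
    have hkR : (1 : ℝ) ≤ k := by exact_mod_cast hk0
    have h5 : y ^ 2 / (2 * k) = (((L : ℝ) * M) ^ 2 + e * ((L : ℝ) * M)) / (2 * k) +
        (e / 2) ^ 2 / (2 * k) := by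
      rw [hy]; ring
    have h6 : ((e : ℝ) / 2) ^ 2 / (2 * k) ≤ 1 := by
      rw [div_le_one (by linarith)]
      nlinarith
    have h7 : 0 ≤ t ^ 2 / 2 := by positivity
    rw [h1, h5]
    linarith
  intro β hβ
  have hgoal : (cnt β α : ℝ) ≤ α ^ 2 / 2 - t * α - 1 → cnt β α ≤ cnt ((p0 : ℝ) / q0) α := by
    intro h
    have h2 : (cnt β α : ℝ) ≤ cnt ((p0 : ℝ) / q0) α := by
      rw [hval]
      exact h.trans htarget
    exact_mod_cast h2
  rcases hf β hβ with h | ⟨p, q, hp, hq, hpB, hqB, hpq, β₁, hβ₁, hle, hd1, hC⟩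
  · exact hgoal h
  have hβ₁0 : 0 < β₁ := by
    rcases hβ₁ with h | h
    · rw [h]; exact hβ
    · rw [h]; exact inv_pos.2 hβ
  have hcnt : cnt β₁ α = cnt β α := by
    rcases hβ₁ with h | h
    · rw [h]
    · rw [h, cnt_inv hβ]
  rw [← hcnt] at hgoal ⊢
  obtain ⟨hneg, hpos⟩ := hl p (mem_range.2 (by omega)) q (mem_range.2 (by omega)) hp hq hpq
  rcases lt_or_ge (t * rr p q - ((p : ℝ) + q - 1) / 2) 0 with hd | hd
  · exact hgoal (hneg hd β₁ hβ₁0 hle hd1 hC)
  obtain ⟨htie, hhalf, hother⟩ := hpos hd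
  obtain ⟨k', s, hs, hk'⟩ := hsqf (p * q)
  have hk'0 : 0 < k' := Nat.pos_of_ne_zero hk'.ne_zero
  by_cases hkk : k' = k
  · subst hkk
    have hαr : α * rr p q = s * L * M + (e * s + p + q - 1) / 2 +
        (t * rr p q - ((p : ℝ) + q - 1) / 2) := by
      rw [hα, alpha_mul hk'0 hs, hy]
      ring
    rcases Nat.even_or_odd' (e * s + p + q) with ⟨v, hv | hv⟩
    · -- half-integral case
      apply hgoal
      apply hhalf β₁ hβ₁0 hle hd1 hC ((s * L * M + v : ℕ) - 1 : ℤ)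
      rw [hαr]
      have h3 : (e : ℝ) * s + p + q = 2 * v := by exact_mod_cast hv
      push_cast
      linarith
    · rcases htie β₁ hβ₁0 hle hd1 hC (s * L * M + v) (by
        rw [hαr]
        have h3 : (e : ℝ) * s + p + q = 2 * v + 1 := by exact_mod_cast hv
        push_cast
        linarith) with h | h
      · have h2 : (cnt β₁ α : ℝ) ≤ cn p q (s * L * M + v) := by exact_mod_cast h
        rw [cn_value hp hq hpq hk'0 hs he (hdvd p q hp hq hpB hqB) hv, ← hval] at h2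
        exact_mod_cast h2
      · exact hgoal h
  · apply hgoal
    have hkB : k' ≤ B * B := by
      have h1 : k' ≤ s ^ 2 * k' := by
        apply Nat.le_mul_of_pos_left
        rcases Nat.eq_zero_or_pos s with h | h
        · exfalso
          rw [h] at hs
          have := Nat.mul_pos hp hq
          simp at hs
          omega
        · positivity
      exact h1.trans (hs.le.trans (Nat.mul_le_mul hpB hqB))
    obtain ⟨m, hm⟩ := hM2 k' (by
      rw [hF, mem_filter, mem_range]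
      exact ⟨by omega, hk', hkk⟩)
    set θ : ℝ := M * (L * (√(k' : ℝ) / √(k : ℝ))) - x k' - m with hθ
    have hrr : rr p q = s * √(k' : ℝ) := rr_eq hs
    have hr1 := one_le_rr hp hq
    have h2r := two_rr_le p q
    have hsB : (s : ℝ) ≤ B := by
      have h1 : s ≤ B := by
        by_contra hc
        push Not at hc
        have h2 : s ^ 2 ≤ s ^ 2 * k' := Nat.le_mul_of_pos_right _ hk'0
        have h3 : p * q ≤ B * B := Nat.mul_le_mul hpB hqB
        nlinarith
      exact_mod_cast h1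
    have hs0' : (0 : ℝ) ≤ s := Nat.cast_nonneg _
    have hαr : 2 * (α * rr p q) = ((2 * s * m + p + q - 1 : ℤ) : ℝ) +
        (2 * (t * rr p q - ((p : ℝ) + q - 1) / 2) + 2 * (η * rr p q) + 2 * (s * θ)) := by
      have h1 : (M : ℝ) * (L * (√(k' : ℝ) / √(k : ℝ))) = θ + x k' + m := by rw [hθ]; ring
      have h2 : α * rr p q = s * ((M : ℝ) * (L * (√(k' : ℝ) / √(k : ℝ))) +
          e / 2 * (√(k' : ℝ) / √(k : ℝ))) + t * rr p q := by
        rw [hα, add_mul]
        congr 1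
        rw [hrr, hy]
        field_simp
      rw [h2, h1, hx]
      simp only
      rw [hrr]
      push_cast
      ring
    have hsθ : |(s : ℝ) * θ| ≤ η / 2 := by
      rw [abs_mul, abs_of_nonneg hs0']
      calc (s : ℝ) * |θ| ≤ B * ε := mul_le_mul hsB hm.le (abs_nonneg _) (Nat.cast_nonneg _)
        _ ≤ (B + 1) * ε := by nlinarith
        _ = η / 2 := by rw [hε]; field_simp
    rw [abs_le] at hsθ
    have hd2 : t * rr p q - ((p : ℝ) + q - 1) / 2 ≤ 1 / 2 - 4 * (η * rr p q) := by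
      have : 4 * (η * rr p q) = rr p q - t * rr p q := by rw [hη]; ring
      rw [this]
      linarith
    have hηr : η ≤ η * rr p q := by nlinarith
    have hfr : Int.fract (2 * (α * rr p q)) =
        2 * (t * rr p q - ((p : ℝ) + q - 1) / 2) + 2 * (η * rr p q) + 2 * (s * θ) := by
      rw [Int.fract_eq_iff]
      refine ⟨by linarith, by linarith, (2 * s * m + p + q - 1 : ℤ), ?_⟩
      rw [hαr]
      ring
    apply hother β₁ hβ₁0 hle hd1 hC
    · rw [hfr]
      linarith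
    · rw [hfr]
      linarith

end Pool.Agent.E8helper63.LT
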